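import Pool.Agent.MP_151d89_pr.H27.Spec

/-!
The Ward block: ridge legs, fluxes, the stream function and the labelled Ward inequality.
Direction b = true is the row through z, b = false is the column through z.
-/

set_option autoImplicit false
open MeasureTheory

namespace Pool.Agent.MP_151d89_pr.H30W
open Pool.Agent.MP_151d89_pr.H82 Pool.Agent.MP_151d89_pr.H33 Pool.Agent.MP_151d89_pr.H67
open Pool.Agent.MP_151d89_pr.H30
open Classical

/-- ridge leg: f descends t + 1 steps from z in direction b, side neighbours are lower -/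
def Leg (b : Bool) (z : ℤ × ℤ) (t : ℕ) (f : Conf) : Prop :=
  (∀ j : ℕ, j ≤ t + 1 → f (pt b z j) = f z - j) ∧
    ∀ j : ℕ, j ≤ t → f (pt b z j + dir (!b)) = f z - j - 1 ∧ f (pt b z j - dir (!b)) = f z - j - 1

/-- the west (b = true) or south (b = false) neighbour is higher -/
def Hi (b : Bool) (z : ℤ × ℤ) (f : Conf) : Prop := f (z - dir b) = f z + 1

/-- the east (b = true) or north (b = false) neighbour is lower -/
def Lo (b : Bool) (z : ℤ × ℤ) (f : Conf) : Prop := f (z + dir b) = f z - 1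

/-- valley of a line -/
def Val (z : ℤ × ℤ) (f : Conf) : Prop := Hi true z f ∧ Hi false z f

/-- peak of a line -/
def Pk (z : ℤ × ℤ) (f : Conf) : Prop := Lo true z f ∧ Lo false z f

/-- the label of a site; c is an offset (0, or the height at a far site) -/
def lab (c : Conf → ℤ) (f : Conf) (z : ℤ × ℤ) : ℤ := (z.1 + z.2 - f z + c f) / 2

/-- mean number of ridge legs through z -/
noncomputable def al (μ : Measure Conf) (b : Bool) (z : ℤ × ℤ) : ℝ :=
  ∑' t : ℕ, μ.real {f | Leg b z t f}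

/-- mean flux over the edge from z to z - dir b -/
noncomputable def fl (μ : Measure Conf) (b : Bool) (z : ℤ × ℤ) : ℝ :=
  ∑' t : ℕ, μ.real {f | Leg b z t f ∧ Hi b z f}

/-- number of legs that start in S and step from z to z - dir b -/
noncomputable def Xn (S : Finset (ℤ × ℤ)) (b : Bool) (z : ℤ × ℤ) (f : Conf) : ℝ :=
  ∑ t ∈ Finset.range S.card, ind (pt b z t ∈ S ∧ Leg b z t f ∧ Hi b z f)

/-- number of all steps at z -/
noncomputable def Xs (S : Finset (ℤ × ℤ)) (z : ℤ × ℤ) (f : Conf) : ℝ :=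
  Xn S true z f + Xn S false z f + ind (Val z f ∧ Pk z f)

/-- no infinite descending run towards east or north, no infinite ascending run towards west or
south -/
def NoDesc (μ : Measure Conf) : Prop :=
  ∀ᵐ f ∂μ, ∀ (b : Bool) (x : ℤ × ℤ), (∃ l : ℕ, f (pt b x (l : ℤ)) ≠ f x - (l : ℤ)) ∧
    ∃ l : ℕ, f (pt b x (-(l : ℤ))) ≠ f x + (l : ℤ)

/-- the stream function of the current of the west and south towers -/
def IsPsi (μ : Measure Conf) (Ψ : ℤ × ℤ → ℝ) : Prop :=
  Ψ 0 = 0 ∧ ∀ z,
    Ψ (z + dir true) - Ψ z =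
        fl μ false z + μ.real {f | Val (z + dir true) f} - μ.real {f | Lo true z f} / 2 ∧
      Ψ z - Ψ (z + dir false) = fl μ true z + μ.real {f | Val z f} - μ.real {f | Lo false z f} / 2

/-- Row Sum: finite first moments, Lipschitz bound along the line, pinned bound -/
def SumStmt : Prop :=
  ∀ μ : Measure Conf, Gibbs μ → Triv μ → NoDesc μ → ∀ b z,
    Summable (fun t : ℕ => μ.real {f | Leg b z t f}) ∧
      Summable (fun t : ℕ => μ.real {f | Leg b z t f ∧ Hi b z f}) ∧
      0 ≤ fl μ b z ∧ fl μ b z ≤ al μ b z ∧ al μ b z ≤ fl μ b z + 1 ∧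
      al μ b z = μ.real {f | Leg b z 0 f} + fl μ b (z + dir b) ∧
      μ.real {f | ¬ Hi b z f} * al μ b z ≤ 1

/-- Row Psi: the stream function exists -/
def PsiStmt : Prop :=
  ∀ μ : Measure Conf, Gibbs μ → Triv μ → NoDesc μ → ∃ Ψ, IsPsi μ Ψ

/-- Row Ward: the labelled Ward inequality in a rectangle -/
def WardStmt : Prop :=
  ∀ μ : Measure Conf, Gibbs μ → ∀ (p q : ℤ × ℤ) (c : Conf → ℤ) (w : ℤ × ℤ → ℤ → ℝ) (B : ℝ),
    Measurable c → (∀ f g : Conf, (∀ y, y ∉ Finset.Icc p q → f y = g y) → c f = c g) →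
    (∀ z l, 0 ≤ w z l ∧ w z l ≤ B) → (∀ z l, z ∉ Finset.Icc p q → w z l = 0) →
      ∑ z ∈ Finset.Icc p q, ∫ f,
          (Xn (Finset.Icc p q) true z f * (w (z - dir true) (lab c f z) - w z (lab c f z + 1)) +
            Xn (Finset.Icc p q) false z f * (w (z - dir false) (lab c f z) - w z (lab c f z + 1)) +
            ind (Val z f ∧ Pk z f) * (w z (lab c f z) - w z (lab c f z + 1))) ∂μ ≤
        ∑ z ∈ Finset.Icc p q, ∫ f,
          (ind (Val z f) * w z (lab c f z) - ind (Pk z f) * w z (lab c f z + 1)) ∂μ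

end Pool.Agent.MP_151d89_pr.H30W
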