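import Pool.Agent.MP_151d89_pr.H30W.Spec2

/-!
Row Alt: every valley of a line is followed by a peak of the same line.
-/

set_option autoImplicit false
open MeasureTheory

namespace Pool.Agent.MP_151d89_pr.H30W
open Pool.Agent.MP_151d89_pr.H82 Pool.Agent.MP_151d89_pr.H33 Pool.Agent.MP_151d89_pr.H67
open Pool.Agent.MP_151d89_pr.H30
open Classical

namespace AltA

variable {c : Conf → ℤ} {f : Conf}

theorem lo_iff (hf : Hom f) (b : Bool) (z : ℤ × ℤ) :
    Lo b z f ↔ lab c f (z + dir b) = lab c f z + 1 := by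
  refine ⟨lab_lo, fun h => ?_⟩
  by_contra hc
  have := lab_nlo (c := c) hf hc
  omega

theorem lab_step (hf : Hom f) (b : Bool) (z : ℤ × ℤ) :
    lab c f z ≤ lab c f (z + dir b) ∧ lab c f (z + dir b) ≤ lab c f z + 1 := by
  by_cases h : Lo b z f
  · have := lab_lo (c := c) h
    omega
  · have := lab_nlo (c := c) hf h
    omega

theorem ex (x y : ℤ) : ((x, y) : ℤ × ℤ) + dir true = (x + 1, y) := by simp [dir]

theorem ey (x y : ℤ) : ((x, y) : ℤ × ℤ) + dir false = (x, y + 1) := by simp [dir]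

/-- the label is monotone along a row -/
theorem mono_x (hf : Hom f) (y : ℤ) {x x' : ℤ} (h : x ≤ x') :
    lab c f (x, y) ≤ lab c f (x', y) := by
  induction x', h using Int.leInduction with
  | base => exact le_rfl
  | succ n _ ih =>
    have := (lab_step (c := c) hf true (n, y)).1
    rw [ex] at this
    exact ih.trans this

/-- the label is monotone along a column -/
theorem mono_y (hf : Hom f) (x : ℤ) {y y' : ℤ} (h : y ≤ y') :
    lab c f (x, y) ≤ lab c f (x, y') := by
  induction y', h using Int.leInduction with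
  | base => exact le_rfl
  | succ n _ ih =>
    have := (lab_step (c := c) hf false (x, n)).1
    rw [ey] at this
    exact ih.trans this

theorem val_lab {x y : ℤ} (h : Val (x, y) f) :
    lab c f (x, y) = lab c f (x - 1, y) + 1 ∧ lab c f (x, y) = lab c f (x, y - 1) + 1 := by
  have a : Lo true (x - 1, y) f := by
    rw [← hi_add, ex, sub_add_cancel]; exact h.1
  have b : Lo false (x, y - 1) f := by
    rw [← hi_add, ey, sub_add_cancel]; exact h.2
  have a' := lab_lo (c := c) a
  have b' := lab_lo (c := c) b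
  rw [ex, sub_add_cancel] at a'
  rw [ey, sub_add_cancel] at b'
  exact ⟨a', b'⟩

/-- one valley with a given label in each row -/
theorem val_uniq (hf : Hom f) {x x' y : ℤ} (h : Val (x, y) f) (h' : Val (x', y) f)
    (e : lab c f (x, y) = lab c f (x', y)) : x = x' := by
  have a := (val_lab (c := c) h).1
  have a' := (val_lab (c := c) h').1
  rcases lt_trichotomy x x' with k | k | k
  · have := mono_x (c := c) hf y (show x ≤ x' - 1 by omega)
    omega
  · exact k
  · have := mono_x (c := c) hf y (show x' ≤ x - 1 by omega)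
    omega

theorem cross (g : ℤ → ℤ) (l : ℤ) {x x' : ℤ} (h : x ≤ x') (h0 : g x < l) (h1 : l ≤ g x') :
    ∃ u, x ≤ u ∧ u < x' ∧ g u < l ∧ l ≤ g (u + 1) := by
  induction x', h using Int.leInduction with
  | base => omega
  | succ n hn ih =>
    by_cases k : l ≤ g n
    · obtain ⟨u, a, b, d⟩ := ih k
      exact ⟨u, a, by omega, d⟩
    · exact ⟨n, hn, by omega, by omega, h1⟩

/-- the peak after a valley -/
theorem next_peak (hf : Hom f) {x y x' : ℤ} (h : Val (x, y) f)
    (h1 : lab c f (x, y) ≤ lab c f (x', y - 1)) :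
    ∃ u, x ≤ u ∧ u < x' ∧ Pk (u, y - 1) f ∧ lab c f (u, y - 1) + 1 = lab c f (x, y) := by
  have a := (val_lab (c := c) h).2
  have hx : x ≤ x' := by
    by_contra k
    have := mono_x (c := c) hf (y - 1) (show x' ≤ x by omega)
    omega
  obtain ⟨u, b1, b2, b3, b4⟩ := cross (fun u => lab c f (u, y - 1)) (lab c f (x, y)) hx
    (by omega) h1
  have d1 := mono_x (c := c) hf (y - 1) b1
  have d2 := mono_x (c := c) hf y b1
  have d3 := (lab_step (c := c) hf true (u, y - 1)).2
  have d4 := (lab_step (c := c) hf false (u, y - 1)).2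
  rw [ex] at d3
  rw [ey, sub_add_cancel] at d4
  refine ⟨u, b1, b2, ⟨(lo_iff (c := c) hf _ _).2 ?_, (lo_iff (c := c) hf _ _).2 ?_⟩, by omega⟩
  · rw [ex]; omega
  · rw [ey, sub_add_cancel]; omega

theorem sum_ind {α : Type} (s : Finset α) (p : α → Prop) [DecidablePred p] :
    ∑ z ∈ s, ind (p z) = ((s.filter p).card : ℝ) := by
  rw [Finset.card_filter]
  push_cast
  refine Finset.sum_congr rfl fun z _ => ?_
  by_cases h : p z
  · rw [ind_pos h, if_pos h]
  · rw [ind_neg h, if_neg h]

end AltA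

open AltA in
theorem alt_row : AltStmt := by
  intro c f hf R T l h
  have key : ∀ z : ℤ × ℤ, ∃ u : ℤ, z ∈ (R \ T).filter (fun z => Val z f ∧ lab c f z = l) →
      (u, z.2 - 1) ∈ R.filter (fun z => Pk z f ∧ lab c f z + 1 = l) := by
    rintro ⟨x, y⟩
    by_cases hz : (x, y) ∈ (R \ T).filter (fun z => Val z f ∧ lab c f z = l)
    · obtain ⟨h1, h2, h3⟩ := Finset.mem_filter.1 hz
      obtain ⟨h4, h5⟩ := Finset.mem_sdiff.1 h1
      obtain ⟨x', h6, h7⟩ := h _ h4 h2 h3 h5
      obtain ⟨u, a1, a2, a3, a4⟩ := next_peak (c := c) (x' := x') hf h2 (by rw [h3]; exact h6)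
      exact ⟨u, fun _ => Finset.mem_filter.2 ⟨h7 u a1 a2, a3, by rw [a4, h3]⟩⟩
    · exact ⟨0, fun h' => absurd h' hz⟩
  choose u hu using key
  have h1 : ((R \ T).filter (fun z => Val z f ∧ lab c f z = l)).card ≤
      (R.filter (fun z => Pk z f ∧ lab c f z + 1 = l)).card := by
    refine Finset.card_le_card_of_injOn (fun z => (u z, z.2 - 1)) (fun z hz => hu z hz) ?_
    rintro ⟨x, y⟩ hz ⟨x', y'⟩ hz' e
    have e2 : y - 1 = y' - 1 := congrArg Prod.snd e
    obtain rfl : y = y' := by omega
    obtain ⟨-, a1, a2⟩ := Finset.mem_filter.1 hz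
    obtain ⟨-, b1, b2⟩ := Finset.mem_filter.1 hz'
    rw [val_uniq (c := c) hf a1 b1 (a2.trans b2.symm)]
  have h2 : (R.filter (fun z => Val z f ∧ lab c f z = l)).card ≤
      ((R \ T).filter (fun z => Val z f ∧ lab c f z = l)).card +
        (T.filter (fun z => Val z f ∧ lab c f z = l)).card := by
    refine le_trans (Finset.card_le_card fun z hz => ?_) (Finset.card_union_le _ _)
    obtain ⟨a1, a2⟩ := Finset.mem_filter.1 hz
    by_cases k : z ∈ T
    · exact Finset.mem_union_right _ (Finset.mem_filter.2 ⟨k, a2⟩)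
    · exact Finset.mem_union_left _ (Finset.mem_filter.2 ⟨Finset.mem_sdiff.2 ⟨a1, k⟩, a2⟩)
  rw [Finset.sum_sub_distrib, sum_ind R (fun z => Val z f ∧ lab c f z = l),
    sum_ind R (fun z => Pk z f ∧ lab c f z + 1 = l),
    sum_ind T (fun z => Val z f ∧ lab c f z = l), sub_le_iff_le_add]
  exact_mod_cast h2.trans ((Nat.add_le_add_right h1 _).trans (Nat.add_comm _ _).le)

end Pool.Agent.MP_151d89_pr.H30W
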