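import Pool.Agent.MP_151d89_pr.H30W.Spec
import Pool.Agent.MP_151d89_pr.H33.Final

/-!
Basic facts on legs, labels and reversibility for the west and south towers.
-/

set_option autoImplicit false
open MeasureTheory

namespace Pool.Agent.MP_151d89_pr.H30W
open Pool.Agent.MP_151d89_pr.H82 Pool.Agent.MP_151d89_pr.H33 Pool.Agent.MP_151d89_pr.H67
open Pool.Agent.MP_151d89_pr.H30
open Classical

theorem meq (x y : ℤ × ℤ) (g : ℤ → ℤ) : Measurable fun f : Conf => f x = g (f y) :=
  measurableSet_setOfPred.1 (measurableSet_eq_fun (by fun_prop)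
    ((measurable_from_top (f := g)).comp (measurable_pi_apply y)))

theorem mLeg (b : Bool) (z : ℤ × ℤ) (t : ℕ) : Measurable (Leg b z t) :=
  (Measurable.forall fun j : ℕ => Measurable.imp measurable_const (meq _ _ fun u => u - j)).and
    (Measurable.forall fun j : ℕ => Measurable.imp measurable_const
      ((meq _ _ fun u => u - j - 1).and (meq _ _ fun u => u - j - 1)))

theorem mHi (b : Bool) (z : ℤ × ℤ) : Measurable (Hi b z) := meq _ _ fun u => u + 1

theorem mLo (b : Bool) (z : ℤ × ℤ) : Measurable (Lo b z) := meq _ _ fun u => u - 1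

theorem mVal (z : ℤ × ℤ) : Measurable (Val z) := (mHi _ _).and (mHi _ _)

theorem mPk (z : ℤ × ℤ) : Measurable (Pk z) := (mLo _ _).and (mLo _ _)

theorem mset {p : Conf → Prop} (h : Measurable p) : MeasurableSet {f | p f} :=
  measurableSet_setOfPred.2 h

theorem mind {p : Conf → Prop} (h : Measurable p) : Measurable fun f => ind (p f) :=
  meas_ind (mset h)

theorem mlab {c : Conf → ℤ} (hc : Measurable c) (z : ℤ × ℤ) : Measurable fun f => lab c f z := by
  unfold lab
  exact (measurable_from_top (f := fun u : ℤ => u / 2)).comp (by fun_prop)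

theorem mw {c : Conf → ℤ} (hc : Measurable c) (z : ℤ × ℤ) (g : ℤ → ℝ) :
    Measurable fun f => g (lab c f z) := (measurable_from_top (f := g)).comp (mlab hc z)

theorem mXn (S : Finset (ℤ × ℤ)) (b : Bool) (z : ℤ × ℤ) : Measurable (Xn S b z) :=
  Finset.measurable_sum _ fun t _ => mind (measurable_const.and ((mLeg b z t).and (mHi b z)))

theorem mXs (S : Finset (ℤ × ℤ)) (z : ℤ × ℤ) : Measurable (Xs S z) :=
  ((mXn S true z).add (mXn S false z)).add (mind ((mVal z).and (mPk z)))

theorem Xn_mem (S : Finset (ℤ × ℤ)) (b : Bool) (z : ℤ × ℤ) (f : Conf) :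
    0 ≤ Xn S b z f ∧ Xn S b z f ≤ S.card := by
  refine ⟨Finset.sum_nonneg fun t _ => (ind_mem _).1, ?_⟩
  refine (Finset.sum_le_sum fun t _ => (ind_mem _).2).trans ?_
  simp

theorem Xs_mem (S : Finset (ℤ × ℤ)) (z : ℤ × ℤ) (f : Conf) :
    0 ≤ Xs S z f ∧ Xs S z f ≤ 2 * S.card + 1 := by
  have h1 := Xn_mem S true z f
  have h2 := Xn_mem S false z f
  have h3 := ind_mem (Val z f ∧ Pk z f)
  unfold Xs
  constructor <;> linarith

theorem Xn_hi {S : Finset (ℤ × ℤ)} {b : Bool} {z : ℤ × ℤ} {f : Conf} (h : ¬ Hi b z f) :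
    Xn S b z f = 0 :=
  Finset.sum_eq_zero fun _ _ => ind_neg fun h' => h h'.2.2

theorem dsum (b : Bool) (z : ℤ × ℤ) : (z + dir b).1 + (z + dir b).2 = z.1 + z.2 + 1 := by
  cases b <;> simp [dir] <;> ring

theorem hi_or {f : Conf} (hf : Hom f) (b : Bool) (z : ℤ × ℤ) :
    f (z - dir b) = f z + 1 ∨ f (z - dir b) = f z - 1 := by
  simpa only [sub_eq_add_neg] using NullP.step' hf b z

theorem hi_add (b : Bool) (z : ℤ × ℤ) (f : Conf) : Hi b (z + dir b) f ↔ Lo b z f := by
  simp only [Hi, Lo, add_sub_cancel_right]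
  omega

/-- the label goes up by one exactly over a descending edge -/
theorem lab_lo {c : Conf → ℤ} {f : Conf} {b : Bool} {z : ℤ × ℤ} (h : Lo b z f) :
    lab c f (z + dir b) = lab c f z + 1 := by
  have := dsum b z
  unfold Lo at h
  unfold lab
  omega

theorem lab_nlo {c : Conf → ℤ} {f : Conf} (hf : Hom f) {b : Bool} {z : ℤ × ℤ} (h : ¬ Lo b z f) :
    lab c f (z + dir b) = lab c f z := by
  have := dsum b z
  have := NullP.step hf b z
  unfold Lo at h
  unfold lab
  omega

theorem pt_add (b : Bool) (z : ℤ × ℤ) (j : ℤ) : pt b (z + dir b) j = pt b z (j + 1) := by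
  simp only [pt, add_smul, one_smul]
  abel

theorem pt_one (b : Bool) (z : ℤ × ℤ) : pt b z 1 = z + dir b := by simp [pt]

theorem leg_lo {b : Bool} {z : ℤ × ℤ} {t : ℕ} {f : Conf} (h : Leg b z t f) : Lo b z f := by
  have := h.1 1 (by omega)
  rwa [Nat.cast_one, pt_one] at this

theorem leg_zero {b : Bool} {z : ℤ × ℤ} {f : Conf} : Leg b z 0 f ↔
    Lo b z f ∧ Lo (!b) z f ∧ f (z - dir (!b)) = f z - 1 := by
  constructor
  · intro h
    have := h.2 0 le_rfl
    simp only [Nat.cast_zero, pt_zero, sub_zero] at this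
    exact ⟨leg_lo h, this.1, this.2⟩
  · rintro ⟨h1, h2, h3⟩
    refine ⟨fun j hj => ?_, fun j hj => ?_⟩
    · rcases (by omega : j = 0 ∨ j = 1) with rfl | rfl
      · simp [pt_zero]
      · rw [Nat.cast_one, pt_one]; exact h1
    · obtain rfl : j = 0 := by omega
      simp only [Nat.cast_zero, pt_zero, sub_zero]
      exact ⟨h2, h3⟩

theorem leg_succ {f : Conf} (hf : Hom f) {b : Bool} {z : ℤ × ℤ} {t : ℕ} :
    Leg b z (t + 1) f ↔ Leg b (z + dir b) t f ∧ Hi b (z + dir b) f := by
  rw [hi_add]
  constructor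
  · intro h
    have h0 : f (z + dir b) = f z - 1 := leg_lo h
    refine ⟨⟨fun j hj => ?_, fun j hj => ?_⟩, h0⟩
    · have := h.1 (j + 1) (by omega)
      push_cast at this
      rw [pt_add, this, h0]
      ring
    · have := h.2 (j + 1) (by omega)
      push_cast at this
      rw [pt_add, this.1, this.2, h0]
      constructor <;> ring
  · rintro ⟨h, h0⟩
    unfold Lo at h0
    refine ⟨fun j hj => ?_, fun j hj => ?_⟩
    · cases j with
      | zero => simp [pt_zero]
      | succ j =>
        have := h.1 j (by omega)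
        rw [pt_add, h0] at this
        push_cast
        rw [this]
        ring
    · cases j with
      | zero =>
        have a := h.2 0 (by omega)
        simp only [Nat.cast_zero, pt_zero, sub_zero] at a ⊢
        have a1 := NullP.step hf b (z + dir (!b))
        have a2 := NullP.step hf b (z - dir (!b))
        have a3 := NullP.step hf (!b) z
        have a4 := hi_or hf (!b) z
        rw [add_right_comm] at a1
        rw [sub_add_eq_add_sub] at a2
        omega
      | succ j =>
        have := h.2 j (by omega)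
        rw [pt_add, h0] at this
        push_cast
        rw [this.1, this.2]
        constructor <;> ring

/-- the tower with upper end z and t edges can be moved down -/
def TD (b : Bool) (z : ℤ × ℤ) (t : ℕ) (f : Conf) : Prop := Leg b z t f ∧ f (z - dir b) = f z - 1

/-- the tower with upper end z and t edges can be moved up -/
def TU (b : Bool) (z : ℤ × ℤ) (t : ℕ) (f : Conf) : Prop :=
  (∀ j : ℕ, j ≤ t → f (pt b z j) = f z - j) ∧ f (z - dir b) = f z + 1 ∧
    f (pt b z (t + 1)) = f z - t + 1 ∧ ∀ j : ℕ, j ≤ t →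
      f (pt b z j + dir (!b)) = f z - j + 1 ∧ f (pt b z j - dir (!b)) = f z - j + 1

theorem mTD (b : Bool) (z : ℤ × ℤ) (t : ℕ) : Measurable (TD b z t) :=
  (mLeg b z t).and (meq _ _ fun u => u - 1)

theorem mTU (b : Bool) (z : ℤ × ℤ) (t : ℕ) : Measurable (TU b z t) :=
  (Measurable.forall fun j : ℕ => Measurable.imp measurable_const (meq _ _ fun u => u - j)).and
    ((meq _ _ fun u => u + 1).and ((meq _ _ fun u => u - t + 1).and
      (Measurable.forall fun j : ℕ => Measurable.imp measurable_const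
        ((meq _ _ fun u => u - j + 1).and (meq _ _ fun u => u - j + 1)))))

theorem pt_m1 (b : Bool) (z : ℤ × ℤ) : pt b z (-1) = z - dir b := by simp [pt, sub_eq_add_neg]

/-- the negative of a configuration -/
def ng : Conf → Conf := FinalAux.T (Equiv.refl _) (-1) 0

theorem ng_apply (f : Conf) (x : ℤ × ℤ) : ng f x = -f x := by simp [ng, FinalAux.T]

theorem td_iff (b : Bool) (z : ℤ × ℤ) (t : ℕ) (f : Conf) :
    Av 1 (b, z, t) (ng f) ↔ TD b z t f := by
  simp only [Av, Run, TD, Leg, ng_apply, pt_m1]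
  constructor
  · rintro ⟨h1, h2, h3, h4⟩
    refine ⟨⟨fun j hj => ?_, fun j hj => ?_⟩, by omega⟩
    · rcases Nat.lt_or_ge t j with a | a
      · obtain rfl : j = t + 1 := by omega
        push_cast
        omega
      · have := h1 j a
        omega
    · have := h4 j hj
      omega
  · rintro ⟨⟨h1, h4⟩, h2⟩
    refine ⟨fun j hj => ?_, by omega, ?_, fun j hj => ?_⟩
    · have := h1 j (by omega)
      omega
    · have := h1 (t + 1) le_rfl
      push_cast at this
      omega
    · have := h4 j hj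
      omega

theorem tu_iff (b : Bool) (z : ℤ × ℤ) (t : ℕ) (f : Conf) :
    Av (-1) (b, z, t) (ng f) ↔ TU b z t f := by
  simp only [Av, Run, TU, ng_apply, pt_m1]
  constructor
  · rintro ⟨h1, h2, h3, h4⟩
    refine ⟨fun j hj => ?_, by omega, by omega, fun j hj => ?_⟩
    · have := h1 j hj
      omega
    · have := h4 j hj
      omega
  · rintro ⟨h1, h2, h3, h4⟩
    refine ⟨fun j hj => ?_, by omega, by omega, fun j hj => ?_⟩
    · have := h1 j hj
      omega
    · have := h4 j hj
      omega

theorem mng : Measurable ng := FinalAux.meas_T _ _ _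

theorem gibbs_ng {μ : Measure Conf} (hμ : Gibbs μ) : Gibbs (μ.map ng) :=
  FinalAux.gibbs_T hμ (fun _ _ => rfl) (by norm_num) 0

/-- reversibility of the west and south towers -/
theorem rev {μ : Measure Conf} (hμ : Gibbs μ) (b : Bool) (z : ℤ × ℤ) (t : ℕ) {G : Conf → ℝ}
    {B : ℝ} (hG : Measurable G) (hB : ∀ f, |G f| ≤ B) :
    ∫ f, ind (TD b z t f) * G (H30.flip (b, z, t) f) ∂μ = ∫ f, ind (TU b z t f) * G f ∂μ := by
  have hm : Measurable fun g => G (H30.flip (b, z, t) (ng g)) :=
    hG.comp ((meas_flip _).comp mng)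
  have h := rev_row _ (gibbs_ng hμ) (b, z, t) (fun g => G (H30.flip (b, z, t) (ng g))) B hm
    fun _ => hB _
  have m1 : Measurable fun g => ind (Av (-1) (b, z, t) g) *
      G (H30.flip (b, z, t) (ng (H30.flip (b, z, t) g))) :=
    (meas_ind (meas_Av _ _)).mul (hm.comp (meas_flip _))
  have m2 : Measurable fun g => ind (Av 1 (b, z, t) g) * G (H30.flip (b, z, t) (ng g)) :=
    (meas_ind (meas_Av _ _)).mul hm
  rw [integral_map mng.aemeasurable m1.aestronglyMeasurable,
    integral_map mng.aemeasurable m2.aestronglyMeasurable] at h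
  have e1 : ∀ f : Conf, H30.flip (b, z, t) (ng (H30.flip (b, z, t) (ng f))) = f := fun f => by
    funext y
    simp only [H30.flip, ng_apply]
    split_ifs <;> ring
  have e2 : ∀ f : Conf, ng (ng f) = f := fun f => by
    funext y
    simp [ng_apply]
  simp only [e1, e2, td_iff, tu_iff] at h
  exact h.symm

theorem rev0 {μ : Measure Conf} (hμ : Gibbs μ) (b : Bool) (z : ℤ × ℤ) (t : ℕ) :
    μ.real {f | TD b z t f} = μ.real {f | TU b z t f} := by
  have h := rev hμ b z t (G := fun _ => 1) (B := 1) measurable_const fun _ => by simp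
  simp only [mul_one] at h
  rwa [int_ind μ (mset (mTD b z t)), int_ind μ (mset (mTU b z t))] at h

theorem tu_uniq {b : Bool} {z : ℤ × ℤ} {t t' : ℕ} {f : Conf} (h : TU b z t f) (h' : TU b z t' f) :
    t' ≤ t := by
  by_contra hc
  have h1 := h'.1 (t + 1) (by omega)
  have h2 := h.2.2.1
  push_cast at h1
  omega

theorem tu_facts {b : Bool} {z : ℤ × ℤ} {t : ℕ} {f : Conf} (h : TU b z t f) :
    Hi b z f ∧ Hi (!b) z f ∧ f (z + dir (!b)) = f z + 1 ∧ (t = 0 → f (z + dir b) = f z + 1) ∧
      (t ≠ 0 → Lo b z f) := by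
  have a := h.2.2.2 0 (Nat.zero_le _)
  simp only [Nat.cast_zero, pt_zero, sub_zero] at a
  refine ⟨h.2.1, a.2, a.1, fun h0 => ?_, fun h0 => ?_⟩
  · have := h.2.2.1
    subst h0
    simpa [pt_one] using this
  · have := h.1 1 (by omega)
    rwa [Nat.cast_one, pt_one] at this

/-- at most one tower with a given upper end can be moved up -/
theorem sum_tu (b : Bool) (z : ℤ × ℤ) (f : Conf) (s : Finset ℕ) {p : Prop}
    (hp : ∀ t ∈ s, TU b z t f → p) : ∑ t ∈ s, ind (TU b z t f) ≤ ind p := by
  by_cases h : ∃ t ∈ s, TU b z t f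
  · obtain ⟨t, ht, h⟩ := h
    rw [ind_pos (hp t ht h), Finset.sum_eq_single_of_mem t ht fun u _ hu =>
      ind_neg fun h' => hu (le_antisymm (tu_uniq h h') (tu_uniq h' h))]
    exact (ind_mem _).2
  · rw [Finset.sum_eq_zero fun t ht => ind_neg fun h' => h ⟨t, ht, h'⟩]
    exact (ind_mem _).1

end Pool.Agent.MP_151d89_pr.H30W
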