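import Pool.Agent.MP_151d89_pr.H30W.Spec2

/-!
The chord inequality with the pressure terms.
-/

set_option autoImplicit false
open MeasureTheory Filter

namespace Pool.Agent.MP_151d89_pr.H30W
open Pool.Agent.MP_151d89_pr.H82 Pool.Agent.MP_151d89_pr.H33 Pool.Agent.MP_151d89_pr.H67
open Pool.Agent.MP_151d89_pr.H30
open Pool.Agent.MP_151d89_pr.H9 (Par gap)
open Classical

namespace CHFA

theorem tel (T : ℤ → ℝ) {a b : ℤ} (h : a ≤ b) :
    ∑ d ∈ Finset.Ico a b, (T (d + 1) - T d) = T b - T a := by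
  induction b, h using Int.leInduction with
  | base => simp
  | succ b hb ih =>
    rw [← Finset.insert_Ico_right_eq_Ico_add_one hb, Finset.sum_insert (by simp), ih]
    ring

theorem mono {c : Conf → ℤ} {f : Conf} (hf : Hom f) {x y x' y' : ℤ} (h1 : x ≤ x') (h2 : y ≤ y') :
    lab c f (x, y) ≤ lab c f (x', y') := by
  have := (lip hf (x', y') (x, y)).1
  simp only [abs_of_nonneg (sub_nonneg.2 h1), abs_of_nonneg (sub_nonneg.2 h2)] at this
  simp only [lab]
  omega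

/-- the tent -/
def ph (P : Par) (d : ℤ) : ℤ :=
  (P.u2 - P.u) * max (d - P.u1) 0 - (P.u2 - P.u1) * max (d - P.u) 0 +
    (P.u - P.u1) * max (d - P.u2) 0

theorem ph_cases {P : Par} (h1 : P.u1 < P.u) (h2 : P.u < P.u2) (d : ℤ) :
    (d ≤ P.u1 ∧ ph P d = 0) ∨ (P.u1 ≤ d ∧ d ≤ P.u ∧ ph P d = (P.u2 - P.u) * (d - P.u1)) ∨
      (P.u ≤ d ∧ d ≤ P.u2 ∧ ph P d = (P.u - P.u1) * (P.u2 - d)) ∨ (P.u2 ≤ d ∧ ph P d = 0) := by
  unfold ph
  rcases le_total d P.u1 with a | a
  · refine Or.inl ⟨a, ?_⟩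
    rw [max_eq_right (by omega), max_eq_right (by omega), max_eq_right (by omega)]
    ring
  rcases le_total d P.u with b | b
  · refine Or.inr (Or.inl ⟨a, b, ?_⟩)
    rw [max_eq_left (by omega), max_eq_right (by omega), max_eq_right (by omega)]
    ring
  rcases le_total d P.u2 with e | e
  · refine Or.inr (Or.inr (Or.inl ⟨b, e, ?_⟩))
    rw [max_eq_left (by omega), max_eq_left (by omega), max_eq_right (by omega)]
    ring
  · refine Or.inr (Or.inr (Or.inr ⟨e, ?_⟩))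
    rw [max_eq_left (by omega), max_eq_left (by omega), max_eq_left (by omega)]
    ring

theorem ph_bd {P : Par} (h1 : P.u1 < P.u) (h2 : P.u < P.u2) (d : ℤ) :
    0 ≤ ph P d ∧ ph P d ≤ (P.u - P.u1) * (P.u2 - P.u) ∧ (ph P d ≠ 0 → P.u1 < d ∧ d < P.u2) := by
  have p1 : 0 < P.u - P.u1 := by omega
  have p2 : 0 < P.u2 - P.u := by omega
  rcases ph_cases h1 h2 d with ⟨a, e⟩ | ⟨a, b, e⟩ | ⟨a, b, e⟩ | ⟨a, e⟩ <;> rw [e]
  · exact ⟨le_rfl, by positivity, fun h => absurd rfl h⟩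
  · refine ⟨by nlinarith, by nlinarith, fun h => ⟨?_, by omega⟩⟩
    by_contra hc
    exact h (by rw [(by omega : d - P.u1 = 0), mul_zero])
  · refine ⟨by nlinarith, by nlinarith, fun h => ⟨by omega, ?_⟩⟩
    by_contra hc
    exact h (by rw [(by omega : P.u2 - d = 0), mul_zero])
  · exact ⟨le_rfl, by positivity, fun h => absurd rfl h⟩

theorem ph_lip {P : Par} (h1 : P.u1 < P.u) (h2 : P.u < P.u2) (d : ℤ) :
    |ph P (d + 1) - ph P d| ≤ P.u2 - P.u1 := by
  have e : ∀ c : ℤ, max (d + 1 - c) 0 = max (d - c) 0 + if c ≤ d then 1 else 0 := fun c => by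
    split_ifs <;> omega
  simp only [ph, e]
  rw [abs_le]
  split_ifs <;> constructor <;> first | omega | nlinarith

theorem ph_two (P : Par) (d : ℤ) : 2 * ph P d - ph P (d + 1) - ph P (d - 1) =
    (if d = P.u then P.u2 - P.u1 else 0) - (if d = P.u1 then P.u2 - P.u else 0) -
      (if d = P.u2 then P.u - P.u1 else 0) := by
  have e : ∀ c : ℤ, max (d + 1 - c) 0 =
      2 * max (d - c) 0 - max (d - 1 - c) 0 + if d = c then 1 else 0 := fun c => by
    split_ifs <;> omega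
  simp only [ph, e]
  split_ifs <;> ring

theorem abel {P : Par} (h1 : P.u1 < P.u) (h2 : P.u < P.u2) (W : ℤ → ℝ) :
    ∑ d ∈ Finset.Ico P.u1 (P.u2 + 1), (ph P d : ℝ) * (2 * W d - W (d + 1) - W (d - 1)) =
      ((P.u2 : ℝ) - P.u1) * W P.u - (P.u2 - P.u) * W P.u1 - (P.u - P.u1) * W P.u2 := by
  have t := tel (fun d => W (d - 1) * ph P d - W d * ph P (d - 1)) (by omega : P.u1 ≤ P.u2 + 1)
  have z : ∀ d, d ≤ P.u1 ∨ P.u2 ≤ d → ph P d = 0 := fun d hd => by
    by_contra hc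
    have := (ph_bd h1 h2 d).2.2 hc
    omega
  simp only [add_sub_cancel_right] at t
  rw [z (P.u2 + 1) (by omega), z P.u2 (by omega), z P.u1 (by omega), z (P.u1 - 1) (by omega)] at t
  have e : ∀ d ∈ Finset.Ico P.u1 (P.u2 + 1), (ph P d : ℝ) * (2 * W d - W (d + 1) - W (d - 1)) =
      (W d * ph P (d + 1) - W (d + 1) * ph P d - (W (d - 1) * ph P d - W d * ph P (d - 1))) +
      ((if d = P.u then ((P.u2 : ℝ) - P.u1) * W d else 0) -
        (if d = P.u1 then ((P.u2 : ℝ) - P.u) * W d else 0) -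
        (if d = P.u2 then ((P.u : ℝ) - P.u1) * W d else 0)) := fun d _ => by
    have := congrArg (fun x : ℤ => (x : ℝ) * W d) (ph_two P d)
    push_cast at this
    split_ifs at this ⊢ <;> linarith
  rw [Finset.sum_congr rfl e, Finset.sum_add_distrib, t, Finset.sum_sub_distrib,
    Finset.sum_sub_distrib, Finset.sum_ite_eq', Finset.sum_ite_eq', Finset.sum_ite_eq',
    if_pos (by simp; omega), if_pos (by simp; omega), if_pos (by simp; omega)]
  simp

/-- the clipped label -/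
def gg (P : Par) (l : ℤ) : ℝ := ((max (min l P.k2 - P.k1) 0 : ℤ) : ℝ)

theorem gg_step (P : Par) (l : ℤ) : gg P l - gg P (l - 1) = ind (P.k1 < l ∧ l ≤ P.k2) := by
  unfold gg
  by_cases h : P.k1 < l ∧ l ≤ P.k2
  · rw [ind_pos h, ← Int.cast_sub, (by omega : max (min l P.k2 - P.k1) 0 -
      max (min (l - 1) P.k2 - P.k1) 0 = 1), Int.cast_one]
  · rw [ind_neg h, ← Int.cast_sub, (by omega : max (min l P.k2 - P.k1) 0 -
      max (min (l - 1) P.k2 - P.k1) 0 = 0), Int.cast_zero]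

/-- the weight -/
noncomputable def ww (N : ℕ) (P : Par) (z : ℤ × ℤ) (l : ℤ) : ℝ :=
  ph P (z.1 - z.2) * ind (P.X0 ≤ z.1 ∧ P.Y1 ≤ z.2 ∧ z.2 ≤ N ∧ P.k1 < l ∧ l ≤ P.k2)

/-- valleys minus peaks -/
noncomputable def hh (c : Conf → ℤ) (P : Par) (f : Conf) (z : ℤ × ℤ) : ℝ :=
  ind (Val z f ∧ P.k1 < lab c f z ∧ lab c f z ≤ P.k2) -
    ind (Pk z f ∧ P.k1 < lab c f z + 1 ∧ lab c f z + 1 ≤ P.k2)

theorem ind_mul (p q : Prop) : ind p * ind q = ind (p ∧ q) := by
  by_cases hp : p <;> by_cases hq : q <;> simp [ind, hp, hq]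

/-- the integer bounds on the parameters -/
structure Bd (N : ℕ) (P : Par) : Prop where
  h1 : P.u1 < P.u
  h2 : P.u < P.u2
  k : P.k1 ≤ P.k' ∧ P.k' ≤ P.k2 ∧ P.b'' ≤ P.b'
  b : ∀ x ∈ [P.u1, P.u, P.u2, P.k1, P.k', P.k2, P.a1, P.a2, P.b', P.b'', P.X0, P.Y1],
    -(N : ℤ) ≤ x ∧ x ≤ N

theorem diag (hF : FaceStmt) {c : Conf → ℤ} {f : Conf} (hf : Hom f) {N : ℕ} {P : Par}
    (hb : Bd N P) (hg : GeoF c P f) {d : ℤ} (hd : P.u1 < d ∧ d < P.u2) :
    ∑ y ∈ Finset.Ico (-(N : ℤ)) (N + 1), hh c P f (d + y, y) =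
      2 * ∑ y ∈ Finset.Ico (-(N : ℤ)) (N + 1), gg P (lab c f (d + y, y)) -
        ∑ y ∈ Finset.Ico (-(N : ℤ)) (N + 1), gg P (lab c f (d + 1 + y, y)) -
        ∑ y ∈ Finset.Ico (-(N : ℤ)) (N + 1), gg P (lab c f (d - 1 + y, y)) := by
  have b := hb.b
  simp only [List.mem_cons, List.not_mem_nil, or_false, forall_eq_or_imp, forall_eq] at b
  obtain ⟨g1, -, -, -, -, g6⟩ := hg
  have k := hb.k
  have hN : -(N : ℤ) ≤ N + 1 := by omega
  have top : ∀ e y, P.u1 ≤ e → (N : ℤ) ≤ y → P.k2 ≤ lab c f (e + N, y) := fun e y h1 h2 =>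
    g1.trans (mono hf (by omega) (by omega))
  have bot : ∀ e, e ≤ P.u2 → lab c f (e + -(N : ℤ), -(N : ℤ)) < P.k1 := fun e h =>
    (mono hf (by omega) (by omega)).trans_lt g6
  have t1 := tel (fun y => gg P (lab c f (d + y, y)) - gg P (lab c f (d - 1 + y, y)) -
    ind (Val (d + y, y) f ∧ P.k1 < lab c f (d + y, y) ∧ lab c f (d + y, y) ≤ P.k2)) hN
  have e1 : gg P (lab c f (d + (N + 1), N + 1)) = gg P (lab c f (d - 1 + (N + 1), N + 1)) := by
    have a1 := top (d + 1) (N + 1) (by omega) (by omega)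
    have a2 := top d (N + 1) (by omega) (by omega)
    rw [(by ring : d + ((N : ℤ) + 1) = d + 1 + N), (by ring : d - 1 + ((N : ℤ) + 1) = d + N)]
    unfold gg
    congr 1
    omega
  have e2 : gg P (lab c f (d + -(N : ℤ), -(N : ℤ))) =
      gg P (lab c f (d - 1 + -(N : ℤ), -(N : ℤ))) := by
    have a1 := bot d (by omega)
    have a2 := bot (d - 1) (by omega)
    unfold gg
    congr 1
    omega
  have e3 : ¬ (Val (d + (N + 1), (N : ℤ) + 1) f ∧ P.k1 < lab c f (d + (N + 1), N + 1) ∧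
      lab c f (d + (N + 1), N + 1) ≤ P.k2) := by
    rintro ⟨⟨-, v⟩, -, v2⟩
    have a1 := top (d + 1) N (by omega) le_rfl
    have a2 : (d + ((N : ℤ) + 1), (N : ℤ) + 1) = (d + 1 + N, (N : ℤ)) + dir false := by
      simp [dir]; ring
    rw [a2] at v v2
    rw [lab_lo ((hi_add _ _ _).1 v)] at v2
    omega
  have e4 : ¬ (Val (d + -(N : ℤ), -(N : ℤ)) f ∧ P.k1 < lab c f (d + -(N : ℤ), -(N : ℤ)) ∧
      lab c f (d + -(N : ℤ), -(N : ℤ)) ≤ P.k2) := fun h => by
    have := bot d (by omega)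
    omega
  rw [e1, e2, ind_neg e3, ind_neg e4] at t1
  simp only [sub_self] at t1
  rw [Finset.mul_sum, ← Finset.sum_sub_distrib, ← Finset.sum_sub_distrib, ← sub_eq_zero,
    ← Finset.sum_sub_distrib]
  refine Eq.trans (Finset.sum_congr rfl fun y _ => ?_) t1
  have h := hF c f hf (gg P) (d + y) y
  have s := gg_step P (lab c f (d + y, y) + 1)
  rw [add_sub_cancel_right] at s
  rw [gg_step, s, ind_mul, ind_mul] at h
  rw [(by ring : d + (y + 1) = d + y + 1), (by ring : d - 1 + (y + 1) = d + y),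
    (by ring : d + 1 + y = d + y + 1)]
  unfold hh
  linarith

theorem mass {c : Conf → ℤ} {f : Conf} (hf : Hom f) {N : ℕ} {P : Par} (hb : Bd N P) {d a : ℤ}
    (ha : -(N : ℤ) ≤ a ∧ a ≤ N) (h : P.k2 ≤ lab c f (d + a, a)) :
    ((P.k2 : ℝ) - P.k1) * (N - a) ≤
      ∑ y ∈ Finset.Ico (-(N : ℤ)) (N + 1), gg P (lab c f (d + y, y)) := by
  have k := hb.k
  have t := tel (fun y => (((P.k2 - P.k1) * max (y - a - 1) 0 : ℤ) : ℝ))
    (by omega : -(N : ℤ) ≤ N + 1)
  rw [max_eq_left (by omega), max_eq_right (by omega)] at t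
  refine le_trans (le_of_eq ?_) (t.ge.trans (Finset.sum_le_sum fun y _ => ?_))
  · push_cast
    ring
  · unfold gg
    rw [← Int.cast_sub, Int.cast_le]
    rcases le_or_gt y a with e | e
    · rw [max_eq_right (by omega), max_eq_right (by omega)]
      omega
    · have := mono (c := c) hf (by omega : d + a ≤ d + y) e.le
      rw [max_eq_left (by omega), max_eq_left (by omega), min_eq_right (by omega),
        max_eq_left (by omega)]
      linarith

theorem mass' {c : Conf → ℤ} {f : Conf} (hf : Hom f) {N : ℕ} {P : Par} (hb : Bd N P)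
    (hg : GeoF c P f) : ∑ y ∈ Finset.Ico (-(N : ℤ)) (N + 1), gg P (lab c f (P.u + y, y)) ≤
      ((P.k' : ℝ) - P.k1) * (N - P.b'') + (P.k2 - P.k') * (N - P.b') := by
  have b := hb.b
  simp only [List.mem_cons, List.not_mem_nil, or_false, forall_eq_or_imp, forall_eq] at b
  obtain ⟨-, -, g3, g4, -⟩ := hg
  have k := hb.k
  have t := tel (fun y => (((P.k' - P.k1) * max (y - P.b'' - 1) 0 +
    (P.k2 - P.k') * max (y - P.b' - 1) 0 : ℤ) : ℝ)) (by omega : -(N : ℤ) ≤ N + 1)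
  rw [max_eq_left (by omega), max_eq_left (by omega), max_eq_right (by omega),
    max_eq_right (by omega)] at t
  refine le_trans (le_trans (Finset.sum_le_sum fun y _ => ?_) t.le) (le_of_eq ?_)
  · unfold gg
    rw [← Int.cast_sub, Int.cast_le]
    rcases le_or_gt y P.b'' with e | e
    · have := mono (c := c) hf (by omega : P.u + y ≤ P.u + P.b'') e
      rw [max_eq_right (by omega), max_eq_right (by omega), max_eq_right (by omega),
        max_eq_right (by omega), max_eq_right (by omega)]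
      omega
    rcases le_or_gt y P.b' with e' | e'
    · have := mono (c := c) hf (by omega : P.u + y ≤ P.u + P.b') e'
      rw [max_eq_left (by omega : 0 ≤ y + 1 - P.b'' - 1),
        max_eq_right (by omega : y + 1 - P.b' - 1 ≤ 0), max_eq_left (by omega : 0 ≤ y - P.b'' - 1),
        max_eq_right (by omega : y - P.b' - 1 ≤ 0)]
      have : max (min (lab c f (P.u + y, y)) P.k2 - P.k1) 0 ≤ P.k' - P.k1 := by omega
      linarith
    · rw [max_eq_left (by omega : 0 ≤ y + 1 - P.b'' - 1),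
        max_eq_left (by omega : 0 ≤ y + 1 - P.b' - 1), max_eq_left (by omega : 0 ≤ y - P.b'' - 1),
        max_eq_left (by omega : 0 ≤ y - P.b' - 1)]
      have : max (min (lab c f (P.u + y, y)) P.k2 - P.k1) 0 ≤ P.k2 - P.k1 := by omega
      linarith
  · push_cast
    ring

/-- the big rectangle -/
noncomputable abbrev SQ (N : ℕ) : Finset (ℤ × ℤ) :=
  Finset.Icc (-(4 * N : ℤ), -(4 * N : ℤ)) (4 * N, 4 * N)

theorem src (hF : FaceStmt) {c : Conf → ℤ} {f : Conf} (hf : Hom f) {N : ℕ} {P : Par}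
    (hb : Bd N P) (hg : GeoF c P f) :
    ∑ z ∈ SQ N, (ind (Val z f) * ww N P z (lab c f z) -
      ind (Pk z f) * ww N P z (lab c f z + 1)) ≤ -gap P := by
  have b := hb.b
  simp only [List.mem_cons, List.not_mem_nil, or_false, forall_eq_or_imp, forall_eq] at b
  have k := hb.k
  have h1 := hb.h1
  have h2 := hb.h2
  have inj : Function.Injective fun p : ℤ × ℤ => (p.1 + p.2, p.2) := fun p q h => by
    simp only [Prod.mk.injEq] at h
    exact Prod.ext (by omega) h.2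
  have e1 : ∑ z ∈ SQ N, (ind (Val z f) * ww N P z (lab c f z) -
      ind (Pk z f) * ww N P z (lab c f z + 1)) =
      ∑ z ∈ (Finset.Ico P.u1 (P.u2 + 1) ×ˢ Finset.Ico (-(N : ℤ)) (N + 1)).map ⟨_, inj⟩,
        (ph P (z.1 - z.2) : ℝ) * hh c P f z := by
    symm
    refine Finset.sum_subset_zero_on_sdiff ?_ ?_ ?_
    · intro z hz
      simp only [Finset.mem_map, Finset.mem_product, Finset.mem_Ico,
        Function.Embedding.coeFn_mk] at hz
      obtain ⟨p, hp, rfl⟩ := hz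
      simp only [Finset.mem_Icc, Prod.mk_le_mk]
      omega
    · rintro ⟨x, y⟩ hz
      have hz' := (Finset.mem_sdiff.1 hz).2
      have : ∀ l, ww N P (x, y) l = 0 := fun l => by
        unfold ww
        by_contra hc
        obtain ⟨c1, c2⟩ := mul_ne_zero_iff.1 hc
        have c3 := (ph_bd h1 h2 _).2.2 (Int.cast_ne_zero.1 c1)
        have c4 := not_not.1 fun h => c2 (ind_neg h)
        refine hz' (Finset.mem_map.2 ⟨(x - y, y), ?_, by simp⟩)
        simp only [Finset.mem_product, Finset.mem_Ico] at c3 c4 ⊢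
        omega
      simp [this]
    · rintro ⟨x, y⟩ hz
      simp only [Finset.mem_map, Finset.mem_product, Finset.mem_Ico,
        Function.Embedding.coeFn_mk, Prod.mk.injEq] at hz
      obtain ⟨p, hp, rfl, rfl⟩ := hz
      by_cases hq : P.X0 ≤ p.1 + p.2 ∧ P.Y1 ≤ p.2
      · have : p.2 ≤ N := by omega
        simp only [ww, hh, hq, this, true_and, ← ind_mul]
        ring
      · have : lab c f (p.1 + p.2, p.2) < P.k1 := by
          rcases le_or_gt P.X0 (p.1 + p.2) with a | a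
          · exact (mono hf (by omega) (by omega)).trans_lt hg.2.2.2.2.2
          · exact (mono hf (by omega) (by omega)).trans_lt hg.2.2.2.2.1
        unfold ww hh
        rw [ind_neg (p := _ ∧ P.k1 < _ ∧ _) (by omega), ind_neg (p := _ ∧ P.k1 < _ ∧ _) (by omega),
          ind_neg (p := _ ∧ _ ∧ _ ∧ P.k1 < _ ∧ _) (by omega),
          ind_neg (p := _ ∧ _ ∧ _ ∧ P.k1 < _ ∧ _) (by omega)]
        ring
  rw [e1, Finset.sum_map, Finset.sum_product]
  have e2 : ∀ d ∈ Finset.Ico P.u1 (P.u2 + 1), ∑ y ∈ Finset.Ico (-(N : ℤ)) (N + 1),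
      (ph P (d + y - y) : ℝ) * hh c P f (d + y, y) = (ph P d : ℝ) *
      (2 * ∑ y ∈ Finset.Ico (-(N : ℤ)) (N + 1), gg P (lab c f (d + y, y)) -
        ∑ y ∈ Finset.Ico (-(N : ℤ)) (N + 1), gg P (lab c f (d + 1 + y, y)) -
        ∑ y ∈ Finset.Ico (-(N : ℤ)) (N + 1), gg P (lab c f (d - 1 + y, y))) := fun d _ => by
    simp only [add_sub_cancel_right]
    rw [← Finset.mul_sum]
    by_cases h0 : ph P d = 0
    · simp [h0]
    · rw [diag hF hf hb hg ((ph_bd h1 h2 d).2.2 h0)]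
  refine (le_of_eq (Finset.sum_congr rfl e2)).trans ?_
  rw [abel h1 h2 fun d => ∑ y ∈ Finset.Ico (-(N : ℤ)) (N + 1), gg P (lab c f (d + y, y))]
  have m1 := mul_le_mul_of_nonneg_left (mass hf hb (by omega) hg.1)
    (by exact_mod_cast (by omega : 0 ≤ P.u2 - P.u) : (0 : ℝ) ≤ P.u2 - P.u)
  have m2 := mul_le_mul_of_nonneg_left (mass hf hb (by omega) hg.2.1)
    (by exact_mod_cast (by omega : 0 ≤ P.u - P.u1) : (0 : ℝ) ≤ P.u - P.u1)
  have m3 := mul_le_mul_of_nonneg_left (mass' hf hb hg)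
    (by exact_mod_cast (by omega : 0 ≤ P.u2 - P.u1) : (0 : ℝ) ≤ P.u2 - P.u1)
  unfold gap
  linarith

theorem ww_mem {N : ℕ} {P : Par} (hb : Bd N P) (z : ℤ × ℤ) (l : ℤ) :
    0 ≤ ww N P z l ∧ ww N P z l ≤ ((P.u : ℝ) - P.u1) * (P.u2 - P.u) := by
  obtain ⟨a, b, -⟩ := ph_bd hb.h1 hb.h2 (z.1 - z.2)
  have a' : (0 : ℝ) ≤ ph P (z.1 - z.2) := by exact_mod_cast a
  have b' : (ph P (z.1 - z.2) : ℝ) ≤ ((P.u : ℝ) - P.u1) * (P.u2 - P.u) := by exact_mod_cast b
  unfold ww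
  exact ⟨mul_nonneg a' (ind_mem _).1, (mul_le_of_le_one_right a' (ind_mem _).2).trans b'⟩

theorem ww_ne {N : ℕ} {P : Par} (hb : Bd N P) {z : ℤ × ℤ} {l : ℤ} (h : ww N P z l ≠ 0) :
    (P.u1 < z.1 - z.2 ∧ z.1 - z.2 < P.u2) ∧
      P.X0 ≤ z.1 ∧ P.Y1 ≤ z.2 ∧ z.2 ≤ N ∧ P.k1 < l ∧ l ≤ P.k2 := by
  obtain ⟨c1, c2⟩ := mul_ne_zero_iff.1 h
  exact ⟨(ph_bd hb.h1 hb.h2 _).2.2 (Int.cast_ne_zero.1 c1), not_not.1 fun h => c2 (ind_neg h)⟩

/-- the bound on the loss of weight in one step -/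
noncomputable def BB (N : ℕ) (c : Conf → ℤ) (P : Par) (z : ℤ × ℤ) (f : Conf) : ℝ :=
  (if z ∈ Finset.Icc (P.X0, P.Y1) ((4 * N : ℤ), (4 * N : ℤ)) then
    ((P.u : ℝ) - P.u1) * (P.u2 - P.u) * ind (lab c f z = P.k1) +
      ((P.u2 : ℝ) - P.u1) * ∑ j ∈ Finset.Ioo P.k1 P.k2, ind (lab c f z = j) else 0) +
    ((P.u : ℝ) - P.u1) * (P.u2 - P.u) * ind (¬ GeoF c P f)

theorem loss {c : Conf → ℤ} {f : Conf} (hf : Hom f) {N : ℕ} {P : Par} (hb : Bd N P)
    {x y x' y' : ℤ} (h : (x' = x - 1 ∧ y' = y) ∨ (x' = x ∧ y' = y - 1) ∨ (x' = x ∧ y' = y)) :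
    -BB N c P (x, y) f ≤
      ww N P (x', y') (lab c f (x, y)) - ww N P (x, y) (lab c f (x, y) + 1) := by
  have b := hb.b
  simp only [List.mem_cons, List.not_mem_nil, or_false, forall_eq_or_imp, forall_eq] at b
  have h1 := hb.h1
  have h2 := hb.h2
  have w1 := ww_mem hb (x', y') (lab c f (x, y))
  have w2 := ww_mem hb (x, y) (lab c f (x, y) + 1)
  have p0 : (0 : ℝ) ≤ ((P.u : ℝ) - P.u1) * (P.u2 - P.u) := w1.1.trans w1.2
  have p1 : (0 : ℝ) ≤ (P.u2 : ℝ) - P.u1 := by exact_mod_cast (by omega : 0 ≤ P.u2 - P.u1)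
  have q1 := mul_nonneg p0 (ind_mem (lab c f (x, y) = P.k1)).1
  have q2 := mul_nonneg p1 (Finset.sum_nonneg fun j (_ : j ∈ Finset.Ioo P.k1 P.k2) =>
    (ind_mem (lab c f (x, y) = j)).1)
  have q3 := mul_nonneg p0 (ind_mem (¬ GeoF c P f)).1
  unfold BB
  by_cases h0 : ww N P (x, y) (lab c f (x, y) + 1) = 0
  · split_ifs <;> linarith
  have c1 := ww_ne hb h0
  simp only at c1
  rw [if_pos (by simp only [Finset.mem_Icc, Prod.mk_le_mk]; omega)]
  by_cases e : lab c f (x, y) = P.k1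
  · rw [ind_pos e]
    linarith
  by_cases hg : GeoF c P f
  swap
  · rw [ind_pos hg]
    linarith
  have a1 : P.X0 ≤ x' := by
    by_contra hc
    have := (mono (c := c) hf (by omega : x ≤ P.X0) (by omega : y ≤ P.X0 - P.u1)).trans_lt
      hg.2.2.2.2.1
    omega
  have a2 : P.Y1 ≤ y' := by
    by_contra hc
    have := (mono (c := c) hf (by omega : x ≤ P.u2 + P.Y1) (by omega : y ≤ P.Y1)).trans_lt
      hg.2.2.2.2.2
    omega
  have s : ∑ j ∈ Finset.Ioo P.k1 P.k2, ind (lab c f (x, y) = j) = 1 := by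
    rw [Finset.sum_eq_single_of_mem (lab c f (x, y)) (by simp only [Finset.mem_Ioo]; omega)
      fun j _ hj => ind_neg fun h => hj h.symm, ind_pos rfl]
  have l : ph P (x - y) - ph P (x' - y') ≤ P.u2 - P.u1 := by
    have l1 := abs_le.1 (ph_lip h1 h2 (x - y))
    have l2 := abs_le.1 (ph_lip h1 h2 (x - y - 1))
    rw [sub_add_cancel] at l2
    rcases h with ⟨rfl, rfl⟩ | ⟨rfl, rfl⟩ | ⟨rfl, rfl⟩
    · rw [sub_right_comm]
      omega
    · rw [(by ring : x' - (y - 1) = x' - y + 1)]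
      omega
    · omega
  have l' : (ph P (x - y) : ℝ) - ph P (x' - y') ≤ P.u2 - P.u1 := by exact_mod_cast l
  unfold ww
  rw [s, ind_pos (p := _ ∧ _ ∧ _) (by simp only; omega),
    ind_pos (p := _ ∧ _ ∧ _) (by simp only; omega)]
  linarith

/-- bounded and measurable -/
def BM (φ : Conf → ℝ) : Prop := Measurable φ ∧ ∃ B, ∀ a, |φ a| ≤ B

theorem BM.int {φ : Conf → ℝ} (h : BM φ) (μ : Measure Conf) [IsFiniteMeasure μ] :
    Integrable φ μ := h.2.elim fun _ b => intg h.1 b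

theorem BM.mul {φ ψ : Conf → ℝ} (h : BM φ) (h' : BM ψ) : BM fun f => φ f * ψ f := by
  obtain ⟨m, B, b⟩ := h
  obtain ⟨m', B', b'⟩ := h'
  exact ⟨m.mul m', B * B', fun a => (abs_mul _ _).le.trans
    (mul_le_mul (b a) (b' a) (abs_nonneg _) ((abs_nonneg _).trans (b a)))⟩

theorem BM.add {φ ψ : Conf → ℝ} (h : BM φ) (h' : BM ψ) : BM fun f => φ f + ψ f := by
  obtain ⟨m, B, b⟩ := h
  obtain ⟨m', B', b'⟩ := h'
  exact ⟨m.add m', B + B', fun a => (abs_add_le _ _).trans (add_le_add (b a) (b' a))⟩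

theorem BM.sub {φ ψ : Conf → ℝ} (h : BM φ) (h' : BM ψ) : BM fun f => φ f - ψ f := by
  obtain ⟨m, B, b⟩ := h
  obtain ⟨m', B', b'⟩ := h'
  exact ⟨m.sub m', B + B', fun a => (abs_sub _ _).trans (add_le_add (b a) (b' a))⟩

theorem bm_ind {p : Conf → Prop} (h : Measurable p) : BM fun f => ind (p f) :=
  ⟨mind h, 1, fun _ => ind_abs _⟩

theorem mlp {c : Conf → ℤ} (hc : Measurable c) (z : ℤ × ℤ) (p : ℤ → Prop) :
    Measurable fun f => p (lab c f z) := (measurable_from_top (f := p)).comp (mlab hc z)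

theorem mgeo {c : Conf → ℤ} (hc : Measurable c) (P : Par) : Measurable (GeoF c P) :=
  (mlp hc _ fun l => P.k2 ≤ l).and ((mlp hc _ fun l => P.k2 ≤ l).and
    ((mlp hc _ fun l => l ≤ P.k').and ((mlp hc _ fun l => l ≤ P.k1).and
      ((mlp hc _ fun l => l < P.k1).and (mlp hc _ fun l => l < P.k1)))))

theorem gap_le {N : ℕ} {P : Par} (hb : Bd N P) : gap P ≤ 12 * (N : ℝ) ^ 3 := by
  have b := hb.b
  simp only [List.mem_cons, List.not_mem_nil, or_false, forall_eq_or_imp, forall_eq] at b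
  have k := hb.k
  have h1 := hb.h1
  have h2 := hb.h2
  have e1 : (P.u2 - P.u1) * P.b' - (P.u2 - P.u) * P.a1 - (P.u - P.u1) * P.a2 ≤ 4 * N ^ 2 := by
    have := mul_le_mul_of_nonneg_left (by omega : P.b' - P.a1 ≤ 2 * N) (by omega : 0 ≤ P.u2 - P.u)
    have := mul_le_mul_of_nonneg_left (by omega : P.b' - P.a2 ≤ 2 * N) (by omega : 0 ≤ P.u - P.u1)
    have := mul_le_mul_of_nonneg_right (by omega : P.u2 - P.u1 ≤ 2 * N) (by omega : 0 ≤ 2 * (N : ℤ))
    nlinarith
  have e2 := mul_le_mul_of_nonneg_left e1 (by omega : 0 ≤ P.k2 - P.k1)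
  have e3 := mul_le_mul_of_nonneg_right (by omega : P.k2 - P.k1 ≤ 3 * N)
    (by positivity : 0 ≤ 4 * (N : ℤ) ^ 2)
  have e4 : 0 ≤ (P.u2 - P.u1) * (P.k' - P.k1) * (P.b' - P.b'') :=
    mul_nonneg (mul_nonneg (by omega) (by omega)) (by omega)
  have : (P.k2 - P.k1) * ((P.u2 - P.u1) * P.b' - (P.u2 - P.u) * P.a1 - (P.u - P.u1) * P.a2) -
      (P.u2 - P.u1) * (P.k' - P.k1) * (P.b' - P.b'') ≤ 12 * N ^ 3 := by linarith
  unfold gap
  exact_mod_cast this

end CHFA
open CHFA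

theorem chf_row (hW : WardStmt) (hF : FaceStmt) : CHFStmt := by
  intro μ hμ N c P hc hN hbd h1 h2 k1 k2 k3
  have := hμ.1
  have hb : Bd N P := ⟨h1, h2, ⟨k1, k2, k3⟩, fun x hx => by
    have := hbd x hx
    rw [← abs_le]
    exact_mod_cast this⟩
  have b := hb.b
  simp only [List.mem_cons, List.not_mem_nil, or_false, forall_eq_or_imp, forall_eq] at b
  have W := hW μ hμ _ _ c (ww N P) _ hc.1 hc.2 (ww_mem hb) fun z l hz => by
    by_contra h
    have := ww_ne hb h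
    refine hz ?_
    simp only [Finset.mem_Icc, Prod.le_def]
    omega
  change ∑ z ∈ SQ N, _ ≤ ∑ z ∈ SQ N, _ at W
  set Φ : ℝ := ((P.u : ℝ) - P.u1) * (P.u2 - P.u) with hΦ
  have N1 : (1 : ℝ) ≤ N := by exact_mod_cast hN
  have Φ0 : 0 ≤ Φ := (ww_mem hb 0 0).1.trans (ww_mem hb 0 0).2
  have Φ1 : Φ ≤ 4 * (N : ℝ) ^ 2 := by
    have : (P.u - P.u1) * (P.u2 - P.u) ≤ 2 * N * (2 * N) :=
      mul_le_mul (by omega) (by omega) (by omega) (by omega)
    have : Φ ≤ 2 * N * (2 * N) := by rw [hΦ]; exact_mod_cast this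
    linarith
  have hS : ((SQ N).card : ℝ) ≤ 81 * (N : ℝ) ^ 2 := by
    have : (SQ N).card = (8 * N + 1) * (8 * N + 1) := by
      rw [SQ, Finset.Icc_prod_def, Finset.card_product, Int.card_Icc]
      congr 1 <;> omega
    rw [this]
    push_cast
    nlinarith
  have bw : ∀ (z z' : ℤ × ℤ) (k : ℤ), BM fun f => ww N P z' (lab c f z + k) := fun z z' k =>
    ⟨mw hc.1 z fun l => ww N P z' (l + k), Φ, fun a => by
      rw [abs_of_nonneg (ww_mem hb _ _).1]; exact (ww_mem hb _ _).2⟩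
  have bw0 : ∀ z z' : ℤ × ℤ, BM fun f => ww N P z' (lab c f z) := fun z z' => by
    simpa using bw z z' 0
  have bn : ∀ b z, BM (Xn (SQ N) b z) := fun b z => ⟨mXn _ b z, (SQ N).card, fun a => by
    rw [abs_of_nonneg (Xn_mem _ _ _ _).1]; exact (Xn_mem _ _ _ _).2⟩
  have bs : ∀ z, BM (Xs (SQ N) z) := fun z =>
    ((bn true z).add (bn false z)).add (bm_ind ((mVal z).and (mPk z)))
  have bg := bm_ind (mgeo hc.1 P).not
  have ig := int_ind μ (mset (mgeo hc.1 P).not)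
  have bj : ∀ z j, BM fun f => ind (lab c f z = j) * Xs (SQ N) z f := fun z j =>
    (bm_ind (mlp hc.1 z fun l => l = j)).mul (bs z)
  have m0 : 0 ≤ μ.real {f | ¬ GeoF c P f} := measureReal_nonneg
  have R : ∑ z ∈ SQ N, ∫ f, (ind (Val z f) * ww N P z (lab c f z) -
      ind (Pk z f) * ww N P z (lab c f z + 1)) ∂μ ≤
      -gap P + 336 * (N : ℝ) ^ 6 * μ.real {f | ¬ GeoF c P f} := by
    have i1 : ∀ z ∈ SQ N, Integrable (fun f => ind (Val z f) * ww N P z (lab c f z) -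
        ind (Pk z f) * ww N P z (lab c f z + 1)) μ := fun z _ =>
      (((bm_ind (mVal z)).mul (bw0 z z)).sub ((bm_ind (mPk z)).mul (bw z z 1))).int μ
    rw [← integral_finsetSum _ i1, ← ig, ← integral_const_mul]
    have e : -gap P = ∫ _ : Conf, -gap P ∂μ := by simp
    rw [e, ← integral_add (integrable_const _) ((bg.int μ).const_mul _)]
    refine integral_mono_ae (integrable_finsetSum _ i1)
      ((integrable_const _).add ((bg.int μ).const_mul _)) (hμ.2.1.mono fun f hf => ?_)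
    by_cases hg : GeoF c P f
    · simp only [ind_neg (not_not.2 hg), mul_zero, add_zero]
      exact src hF hf hb hg
    · simp only [ind_pos hg, mul_one]
      refine (Finset.sum_le_card_nsmul _ _ Φ fun z _ => ?_).trans ?_
      · have := mul_nonneg (ind_mem (Pk z f)).1 (ww_mem hb z (lab c f z + 1)).1
        have := mul_le_of_le_one_left (ww_mem hb z (lab c f z)).1 (ind_mem (Val z f)).2
        linarith [(ww_mem hb z (lab c f z)).2]
      · have := gap_le hb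
        have := mul_le_mul hS Φ1 Φ0 (by positivity)
        have := pow_le_pow_right₀ N1 (by norm_num : 4 ≤ 6)
        have := pow_le_pow_right₀ N1 (by norm_num : 3 ≤ 6)
        rw [nsmul_eq_mul]
        linarith
  have L : ∀ z ∈ SQ N, -((if z ∈ Finset.Icc (P.X0, P.Y1) ((4 * N : ℤ), (4 * N : ℤ)) then
      Φ * ∫ f, ind (lab c f z = P.k1) * Xs (SQ N) z f ∂μ + ((P.u2 : ℝ) - P.u1) *
        ∑ j ∈ Finset.Ioo P.k1 P.k2, ∫ f, ind (lab c f z = j) * Xs (SQ N) z f ∂μ else 0) +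
      Φ * (163 * (N : ℝ) ^ 2) * μ.real {f | ¬ GeoF c P f}) ≤ ∫ f,
      (Xn (SQ N) true z f * (ww N P (z - dir true) (lab c f z) - ww N P z (lab c f z + 1)) +
        Xn (SQ N) false z f * (ww N P (z - dir false) (lab c f z) - ww N P z (lab c f z + 1)) +
        ind (Val z f ∧ Pk z f) * (ww N P z (lab c f z) - ww N P z (lab c f z + 1))) ∂μ := by
    rintro ⟨x, y⟩ -
    have ij : Integrable (fun f => ∑ j ∈ Finset.Ioo P.k1 P.k2,
        ind (lab c f (x, y) = j) * Xs (SQ N) (x, y) f) μ :=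
      integrable_finsetSum _ fun j _ => (bj _ j).int μ
    have i2 : Integrable (fun f => Φ * (ind (lab c f (x, y) = P.k1) * Xs (SQ N) (x, y) f) +
        ((P.u2 : ℝ) - P.u1) * ∑ j ∈ Finset.Ioo P.k1 P.k2,
          ind (lab c f (x, y) = j) * Xs (SQ N) (x, y) f) μ :=
      (((bj (x, y) P.k1).int μ).const_mul Φ).add (ij.const_mul ((P.u2 : ℝ) - P.u1))
    have i3 := (bg.int μ).const_mul (Φ * (163 * (N : ℝ) ^ 2))
    have i4 := ((((bn true (x, y)).mul ((bw0 (x, y) ((x, y) - dir true)).sub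
      (bw (x, y) (x, y) 1))).add ((bn false (x, y)).mul ((bw0 (x, y) ((x, y) - dir false)).sub
      (bw (x, y) (x, y) 1)))).add ((bm_ind ((mVal (x, y)).and (mPk (x, y)))).mul
      ((bw0 (x, y) (x, y)).sub (bw (x, y) (x, y) 1)))).int μ
    have key : ∀ᵐ f ∂μ, -(BB N c P (x, y) f * Xs (SQ N) (x, y) f) ≤
        Xn (SQ N) true (x, y) f * (ww N P ((x, y) - dir true) (lab c f (x, y)) -
          ww N P (x, y) (lab c f (x, y) + 1)) + Xn (SQ N) false (x, y) f *
        (ww N P ((x, y) - dir false) (lab c f (x, y)) - ww N P (x, y) (lab c f (x, y) + 1)) +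
        ind (Val (x, y) f ∧ Pk (x, y) f) *
          (ww N P (x, y) (lab c f (x, y)) - ww N P (x, y) (lab c f (x, y) + 1)) :=
      hμ.2.1.mono fun f hf => by
        have a1 := mul_le_mul_of_nonneg_left (loss (c := c) hf hb (Or.inl ⟨rfl, rfl⟩ :
          (x - 1 = x - 1 ∧ y = y) ∨ _)) (Xn_mem (SQ N) true (x, y) f).1
        have a2 := mul_le_mul_of_nonneg_left (loss (c := c) hf hb (Or.inr (Or.inl ⟨rfl, rfl⟩) :
          _ ∨ (x = x ∧ y - 1 = y - 1) ∨ _)) (Xn_mem (SQ N) false (x, y) f).1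
        have a3 := mul_le_mul_of_nonneg_left (loss (c := c) hf hb (Or.inr (Or.inr ⟨rfl, rfl⟩) :
          _ ∨ _ ∨ (x = x ∧ y = y))) (ind_mem (Val (x, y) f ∧ Pk (x, y) f)).1
        rw [(by simp [dir] : (x, y) - dir true = (x - 1, y)),
          (by simp [dir] : (x, y) - dir false = (x, y - 1))]
        unfold Xs
        linarith
    have xs : ∀ f, Φ * ind (¬ GeoF c P f) * Xs (SQ N) (x, y) f ≤
        Φ * (163 * (N : ℝ) ^ 2) * ind (¬ GeoF c P f) := fun f => by
      have := mul_le_mul_of_nonneg_left ((Xs_mem (SQ N) (x, y) f).2.trans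
        (by nlinarith : _ ≤ 163 * (N : ℝ) ^ 2)) (mul_nonneg Φ0 (ind_mem (¬ GeoF c P f)).1)
      linarith
    rw [← ig, ← integral_const_mul, ← integral_const_mul,
      ← integral_finsetSum _ fun j _ => (bj _ j).int μ, ← integral_const_mul,
      ← integral_add (((bj (x, y) P.k1).int μ).const_mul Φ) (ij.const_mul _)]
    split_ifs with hq
    · rw [← integral_add i2 i3, ← integral_neg]
      refine integral_mono_ae (i2.add i3).neg i4 (key.mono fun f hf => le_trans ?_ hf)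
      have := xs f
      simp only [BB, if_pos hq, ← Finset.sum_mul, ← hΦ]
      linarith
    · rw [zero_add, ← integral_neg]
      refine integral_mono_ae i3.neg i4 (key.mono fun f hf => le_trans ?_ hf)
      have := xs f
      simp only [BB, if_neg hq, ← hΦ]
      linarith
  have L' := (Finset.sum_le_sum L).trans (W.trans R)
  have sub : Finset.Icc (P.X0, P.Y1) ((4 * N : ℤ), (4 * N : ℤ)) ⊆ SQ N := fun z hz => by
    simp only [Finset.mem_Icc, Prod.le_def] at hz ⊢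
    omega
  rw [Finset.sum_neg_distrib, Finset.sum_add_distrib, Finset.sum_ite_mem,
    Finset.inter_eq_right.2 sub, Finset.sum_add_distrib, ← Finset.mul_sum, ← Finset.mul_sum,
    Finset.sum_comm, Finset.sum_const, nsmul_eq_mul] at L'
  have f1 : ((SQ N).card : ℝ) * (Φ * (163 * (N : ℝ) ^ 2)) ≤
      81 * (N : ℝ) ^ 2 * (4 * (N : ℝ) ^ 2 * (163 * (N : ℝ) ^ 2)) := by gcongr
  have f2 := mul_le_mul_of_nonneg_right f1 m0
  have f3 : 0 ≤ (N : ℝ) ^ 6 * μ.real {f | ¬ GeoF c P f} := by positivity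
  unfold JJ
  linarith

end Pool.Agent.MP_151d89_pr.H30W
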