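import Pool.Agent.MP_151d89_pr.H30W.Psi

/-!
The first moment of the east and north towers against a cut-off.
-/

set_option autoImplicit false
open MeasureTheory Finset Filter Topology

namespace Pool.Agent.MP_151d89_pr.H30W.FMC
open Pool.Agent.MP_151d89_pr.H82 Pool.Agent.MP_151d89_pr.H33 Pool.Agent.MP_151d89_pr.H67
open Pool.Agent.MP_151d89_pr.H30
open Pool.Agent.MP_151d89_pr.H30.RunAux (pt_pt)
open Pool.Agent.MP_151d89_pr.H27 (Rdg Vly NoRay)
open Classical

variable {μ : Measure Conf}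

/-- probability of the tower from x with l edges -/
noncomputable def P (μ : Measure Conf) (b : Bool) (x : ℤ × ℤ) (l : ℕ) : ℝ :=
  μ.real {f | Av (-1) (b, x, l) f}

/-- towers with fewer than K edges over the edge from z to z + dir b -/
noncomputable def E (μ : Measure Conf) (b : Bool) (K : ℕ) (z : ℤ × ℤ) : ℝ :=
  ∑ l ∈ range K, ∑ i ∈ range l, P μ b (pt b z (-(i : ℤ))) l

/-- towers over the edge from z to z + dir b, rectangular truncation -/
noncomputable def E' (μ : Measure Conf) (b : Bool) (K : ℕ) (z : ℤ × ℤ) : ℝ :=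
  ∑ i ∈ range K, ∑ j ∈ range K, P μ b (pt b z (-(i : ℤ))) (i + j + 1)

/-- towers over the site z, rectangular truncation -/
noncomputable def F (μ : Measure Conf) (b : Bool) (K : ℕ) (z : ℤ × ℤ) : ℝ :=
  ∑ i ∈ range K, ∑ j ∈ range K, P μ b (pt b z (-(i : ℤ))) (i + j)

theorem P0 (b : Bool) (x : ℤ × ℤ) (l : ℕ) : 0 ≤ P μ b x l := measureReal_nonneg

theorem E0 (b : Bool) (K : ℕ) (z : ℤ × ℤ) : 0 ≤ E μ b K z :=
  sum_nonneg fun _ _ => sum_nonneg fun _ _ => P0 _ _ _

theorem E_eq (b : Bool) (K : ℕ) (z : ℤ × ℤ) :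
    E μ b K z = ∑ i ∈ range K, ∑ l ∈ Ico (i + 1) K, P μ b (pt b z (-(i : ℤ))) l := by
  simp only [E, range_eq_Ico]
  exact (sum_Ico_Ico_comm' 0 K fun i l => P μ b (pt b z (-(i : ℤ))) l).symm

theorem E_le (b : Bool) (K : ℕ) (z : ℤ × ℤ) : E μ b K z ≤ E' μ b K z := by
  rw [E_eq]
  refine sum_le_sum fun i _ => ?_
  rw [sum_Ico_eq_sum_range]
  simp only [add_right_comm i 1]
  exact sum_le_sum_of_subset_of_nonneg (range_mono (by omega)) fun _ _ _ => P0 _ _ _

theorem E_mono (b : Bool) {K K' : ℕ} (h : K ≤ K') (z : ℤ × ℤ) : E μ b K z ≤ E μ b K' z :=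
  sum_le_sum_of_subset_of_nonneg (range_mono h) fun _ _ _ => sum_nonneg fun _ _ => P0 _ _ _

theorem ends (hμ : Gibbs μ) (b : Bool) (K : ℕ) (z : ℤ × ℤ) :
    ∑ l ∈ range K, P μ b (pt b z (-(l : ℤ))) l ≤ μ.real {f | Vly b z 0 f} := by
  simp only [P, H45.p_rev hμ]
  exact H45.sum_end hμ b z _

theorem F_le (hμ : Gibbs μ) (b : Bool) (K : ℕ) (z : ℤ × ℤ) : F μ b K z ≤ 1 + E μ b (2 * K) z := by
  have := hμ.1
  have h1 : μ.real {f | Vly b z 0 f} ≤ 1 := measureReal_le_one
  have h2 : F μ b K z ≤ ∑ i ∈ range K, (P μ b (pt b z (-(i : ℤ))) i +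
      ∑ l ∈ Ico (i + 1) (2 * K), P μ b (pt b z (-(i : ℤ))) l) := sum_le_sum fun i hi => by
    have hi' := mem_range.1 hi
    rw [← sum_eq_sum_Ico_succ_bot (by omega), sum_Ico_eq_sum_range]
    exact sum_le_sum_of_subset_of_nonneg (range_mono (by omega)) fun _ _ _ => P0 _ _ _
  have h3 : ∑ i ∈ range K, ∑ l ∈ Ico (i + 1) (2 * K), P μ b (pt b z (-(i : ℤ))) l ≤
      E μ b (2 * K) z := by
    rw [E_eq]
    exact sum_le_sum_of_subset_of_nonneg (range_mono (by omega)) fun _ _ _ =>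
      sum_nonneg fun _ _ => P0 _ _ _
  rw [sum_add_distrib] at h2
  linarith [ends hμ b K z]

theorem E_div (b : Bool) (K : ℕ) (z : ℤ × ℤ) : E μ b K (z - dir b) - E μ b K z =
    ∑ l ∈ range K, P μ b (pt b z (-(l : ℤ))) l - ∑ l ∈ range K, P μ b z l := by
  simp only [E, ← sum_sub_distrib]
  refine sum_congr rfl fun l _ => ?_
  have e : ∀ i : ℕ, pt b (z - dir b) (-(i : ℤ)) = pt b z (-((i + 1 : ℕ) : ℤ)) := fun i => by
    rw [H45.pt_dir']; congr 1; push_cast; ring
  simp only [e]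
  rw [sum_range_sub (fun i : ℕ => P μ b (pt b z (-(i : ℤ))) l)]
  simp only [Nat.cast_zero, neg_zero, pt_zero]

theorem shift (G h : ℤ × ℤ → ℝ) (B : Finset (ℤ × ℤ)) (v : ℤ × ℤ) (h1 : ∀ z ∉ B, G z = 0)
    (h2 : ∀ z ∉ B, G (z + v) = 0) : ∑ z ∈ B, G z * h (z - v) = ∑ z ∈ B, G (z + v) * h z := by
  have a1 : ∑' z, G z * h (z - v) = ∑ z ∈ B, G z * h (z - v) :=
    tsum_eq_sum fun z hz => by rw [h1 z hz, zero_mul]
  have a2 : ∑' z, G (z + v) * h z = ∑ z ∈ B, G (z + v) * h z :=
    tsum_eq_sum fun z hz => by rw [h2 z hz, zero_mul]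
  rw [← a1, ← a2, ← (Equiv.addRight v).tsum_eq]
  simp

theorem sbp (G h : ℤ × ℤ → ℝ) (B : Finset (ℤ × ℤ)) (v : ℤ × ℤ) (h1 : ∀ z ∉ B, G z = 0)
    (h2 : ∀ z ∉ B, G (z + v) = 0) :
    ∑ z ∈ B, G z * (h (z - v) - h z) = ∑ z ∈ B, (G (z + v) - G z) * h z := by
  simp only [mul_sub, sub_mul, sum_sub_distrib, shift G h B v h1 h2]

theorem sbp_le (G h : ℤ × ℤ → ℝ) (B : Finset (ℤ × ℤ)) (v : ℤ × ℤ) (h1 : ∀ z ∉ B, G z = 0)
    (h2 : ∀ z ∉ B, G (z + v) = 0) (h3 : ∀ z, |h z| ≤ 1) :
    ∑ z ∈ B, G z * (h (z - v) - h z) ≤ ∑ z ∈ B, |G (z + v) - G z| := by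
  rw [sbp G h B v h1 h2]
  refine sum_le_sum fun z _ => (le_abs_self _).trans ?_
  rw [abs_mul]
  exact mul_le_of_le_one_right (abs_nonneg _) (h3 z)

/-- the east and north neighbours are higher -/
def EN (z : ℤ × ℤ) (f : Conf) : Prop := ¬ Lo true z f ∧ ¬ Lo false z f

/-- the west and south neighbours are lower -/
def WS (z : ℤ × ℤ) (f : Conf) : Prop := ¬ Hi true z f ∧ ¬ Hi false z f

theorem run0 (b : Bool) (x : ℤ × ℤ) (f : Conf) : Run b x 0 f := fun t ht => by
  obtain rfl : t = 0 := by omega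
  simp [pt_zero]

theorem src (hμ : Gibbs μ) (z : ℤ × ℤ) :
    μ.real {f | Vly true z 0 f} + μ.real {f | Vly false z 0 f} - μ.real {f | Rdg true z 0 f} -
      μ.real {f | Rdg false z 0 f} = μ.real {f | EN z f} - μ.real {f | WS z f} := by
  have a5 := rev0 hμ true z 0
  have mV : ∀ b, Measurable (Vly b z 0) := fun b => measurableSet_setOfPred.1 (H45.meas_Vly b z 0)
  have mR : ∀ b, Measurable (Rdg b z 0) := fun b => measurableSet_setOfPred.1 (H45.meas_Rdg b z 0)
  have mE : Measurable (EN z) := (mLo _ _).not.and (mLo _ _).not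
  have mW : Measurable (WS z) := (mHi _ _).not.and (mHi _ _).not
  have st : ∀ f, Hom f → _ := fun f hf =>
    And.intro (And.intro (hi_or hf true z) (hi_or hf false z))
      (And.intro (NullP.step hf true z) (NullP.step hf false z))
  have b1 := ind_two hμ (mR true) (mR false) (mW.and mE.not) (mTD true z 0) fun f hf => by
    have := st f hf
    simp only [Rdg, run0, true_and, TD, leg_zero, EN, WS, Hi, Lo, Bool.not_true, Bool.not_false]
    omega
  have b2 := ind_two hμ (mV true) (mV false) (mE.and mW.not) (mTU true z 0) fun f hf => by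
    have := st f hf
    simp only [Vly, run0, true_and, tu_zero, EN, WS, Hi, Lo, Bool.not_true, Bool.not_false]
    omega
  have b3 := ind_two hμ mE (mW.and mE.not) mW (mE.and mW.not) fun f _ => by tauto
  linarith

theorem face (hμ : Gibbs μ) (z : ℤ × ℤ) :
    μ.real {f | EN z f} + μ.real {f | Lo false z f} =
      μ.real {f | WS (z + dir true + dir false) f} + μ.real {f | Lo false (z + dir true) f} := by
  refine ind_two hμ ((mLo _ _).not.and (mLo _ _).not) (mLo _ _) ((mHi _ _).not.and (mHi _ _).not)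
    (mLo _ _) fun f hf => ?_
  have a1 := NullP.step hf true z
  have a2 := NullP.step hf false z
  have a3 := NullP.step hf true (z + dir false)
  have a4 := NullP.step hf false (z + dir true)
  have e : z + dir false + dir true = z + dir true + dir false := add_right_comm _ _ _
  have e1 : z + dir true + dir false - dir true = z + dir false := by abel
  rw [e] at a3
  simp only [EN, WS, Hi, Lo, add_sub_cancel_right, e1]
  omega

/-- the Ward inequality for a nonnegative test function -/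
theorem ward (hμ : Gibbs μ) (hN : NoRay μ) (G : ℤ × ℤ → ℝ) (B : Finset (ℤ × ℤ)) (X : ℝ)
    (h0 : ∀ z, 0 ≤ G z) (h1 : ∀ z ∉ B, G z = 0) (h2 : ∀ b, ∀ z ∉ B, G (z + dir b) = 0)
    (hX : ∀ b, ∑ z ∈ B, |G (z + dir b) - G z| ≤ X) {ε : ℝ} (hε : 0 < ε) :
    ∀ᶠ K in atTop, ∑ z ∈ B, (G (z + dir true) - G z) * E μ true K z +
      ∑ z ∈ B, (G (z + dir false) - G z) * E μ false K z ≤ 3 * X + ε := by
  have := hμ.1
  have ab : ∀ s : Set Conf, |μ.real s| ≤ 1 := fun s => by
    rw [abs_of_nonneg measureReal_nonneg]; exact measureReal_le_one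
  have t1 : ∀ b z, Tendsto (fun K => ∑ l ∈ range K, P μ b z l) atTop
      (𝓝 (μ.real {f | Rdg b z 0 f})) := fun b z => by
    simpa only [zero_add, P] using (H45.hasSum_rdg hμ hN b z 0).tendsto_sum_nat
  have t2 : Tendsto (fun K => ∑ z ∈ B, G z * (μ.real {f | Vly true z 0 f} +
      μ.real {f | Vly false z 0 f} - ∑ l ∈ range K, P μ true z l - ∑ l ∈ range K, P μ false z l))
      atTop (𝓝 (∑ z ∈ B, G z * (μ.real {f | EN z f} - μ.real {f | WS z f}))) :=
    tendsto_finsetSum _ fun z _ => Tendsto.const_mul _ (by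
      rw [← src hμ z]
      exact ((t1 true z).const_sub _).sub (t1 false z))
  have c2 := sbp_le G (fun z => -μ.real {f | WS (z + dir true) f}) B _ h1 (h2 true)
    fun _ => by rw [abs_neg]; exact ab _
  have c3 := sbp_le G (fun z => -μ.real {f | WS (z + dir true + dir false) f}) B _ h1 (h2 false)
    fun _ => by rw [abs_neg]; exact ab _
  have c4 := sbp_le G (fun z => -μ.real {f | Lo false (z + dir true) f}) B _ h1 (h2 true)
    fun _ => by rw [abs_neg]; exact ab _
  have e : ∀ z : ℤ × ℤ, z - dir false + dir true + dir false = z + dir true := fun z => by abel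
  simp only [sub_add_cancel, e] at c2 c3 c4
  have c5 : ∑ z ∈ B, G z * (μ.real {f | EN z f} - μ.real {f | WS z f}) < 3 * X + ε := by
    refine lt_of_le_of_lt (le_of_eq ?_) (lt_of_le_of_lt (add_le_add (add_le_add
      (c2.trans (hX true)) (c3.trans (hX false))) (c4.trans (hX true))) (by linarith))
    rw [← sum_add_distrib, ← sum_add_distrib]
    refine sum_congr rfl fun z _ => ?_
    rw [← mul_add, ← mul_add]
    congr 1
    linarith [face hμ z]
  filter_upwards [t2.eventually (gt_mem_nhds c5)] with K hK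
  refine le_trans ?_ hK.le
  rw [← sbp G _ B _ h1 (h2 true), ← sbp G _ B _ h1 (h2 false), ← sum_add_distrib]
  refine sum_le_sum fun z _ => ?_
  rw [← mul_add, E_div, E_div]
  refine mul_le_mul_of_nonneg_left ?_ (h0 z)
  linarith [ends hμ true K z, ends hμ false K z]

/-- the first moment bound -/
theorem core (hμ : Gibbs μ) (hN : NoRay μ) {R : ℕ} {φ : ℤ × ℤ → ℝ} {T D : ℝ} (hR : 1 ≤ R)
    (h0 : ∀ z, 0 ≤ φ z ∧ φ z ≤ 1) (hs : ∀ z, φ z ≠ 0 → nrm z ≤ R)
    (hT : ∀ b (J : Finset (ℤ × ℤ)), ∑ z ∈ J, |φ (z + dir b) - φ z| ≤ T)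
    (hD : ∀ b z K, |φ (z + dir b) - φ z| * E' μ b K z ≤ D) (b : Bool) (J : Finset (ℤ × ℤ))
    (K : ℕ) : ∑ z ∈ J, φ z * F μ b K z ≤ 400 * (R ^ 2 + R * T + D * R ^ 3) := by
  have hR' : (1 : ℝ) ≤ R := by exact_mod_cast hR
  have T0 : 0 ≤ T := by simpa using hT true ∅
  have D0 : 0 ≤ D := by simpa [E'] using hD true 0 0
  set B := box 0 (R + 1) with hB
  have cB : (B.card : ℝ) ≤ 25 * R ^ 2 := by
    rw [hB, card_box]
    push_cast
    nlinarith
  have nd : ∀ b (z : ℤ × ℤ), nrm z ≤ nrm (z + dir b) + 1 := fun b z => by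
    have a1 := H45.co_dir b z
    have a2 := H45.co_side (!b) z
    rw [Bool.not_not] at a2
    cases b <;> simp only [nrm, H45.co, Int.abs_eq_natAbs, Bool.not_true, Bool.not_false,
      Bool.false_eq_true, if_true, if_false] at a1 a2 ⊢ <;> omega
  have z1 : ∀ z ∉ B, φ z = 0 := fun z hz => by
    by_contra h
    have := hs z h
    exact hz (NullP.mem_box0.2 (by push_cast; omega))
  have z2 : ∀ b, ∀ z ∉ B, φ (z + dir b) = 0 := fun b z hz => by
    by_contra h
    have := hs _ h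
    have := nd b z
    exact hz (NullP.mem_box0.2 (by push_cast; omega))
  set g : ℤ × ℤ → ℝ := fun z => ((z.1 + z.2 + 2 * R : ℤ) : ℝ) with hg
  have g1 : ∀ b z, g (z + dir b) = g z + 1 := fun b z => by
    simp only [hg, dsum]; push_cast; ring
  have g2 : ∀ b, ∀ z ∈ B, |g (z + dir b)| ≤ 7 * R := fun b z hz => by
    have a := mem_box.1 hz
    have : |(z + dir b).1 + (z + dir b).2 + 2 * R| ≤ 7 * R := by
      rw [dsum, abs_le]
      simp only [Prod.fst_zero, Prod.snd_zero] at a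
      push_cast at a
      omega
    simp only [hg]
    exact_mod_cast this
  have g3 : ∀ b, ∀ z ∈ B, |g (z + dir b) * φ (z + dir b) - g z * φ z - φ z| ≤
      7 * R * |φ (z + dir b) - φ z| := fun b z hz => by
    have e : g (z + dir b) * φ (z + dir b) - g z * φ z - φ z =
        g (z + dir b) * (φ (z + dir b) - φ z) := by rw [g1]; ring
    rw [e, abs_mul]
    exact mul_le_mul_of_nonneg_right (g2 b z hz) (abs_nonneg _)
  have sφ : ∑ z ∈ B, φ z ≤ 25 * R ^ 2 :=
    ((sum_le_sum fun z _ => (h0 z).2).trans (by simp)).trans cB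
  have w := ward hμ hN (fun z => g z * φ z) B (25 * R ^ 2 + 7 * R * T) (fun z => by
      by_cases h : φ z = 0
      · simp [h]
      · refine mul_nonneg ?_ (h0 z).1
        have a := hs z h
        have : 0 ≤ z.1 + z.2 + 2 * R := by
          simp only [nrm, Int.abs_eq_natAbs] at a
          omega
        simp only [hg]
        exact_mod_cast this)
    (fun z hz => by rw [z1 z hz, mul_zero]) (fun b z hz => by rw [z2 b z hz, mul_zero])
    (fun b => by
      refine le_trans (sum_le_sum (g := fun z => φ z + 7 * R * |φ (z + dir b) - φ z|)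
        fun z hz => ?_) ?_
      · have := abs_le.1 (g3 b z hz)
        have := (h0 z).1
        rw [abs_le]
        constructor <;> linarith
      · rw [sum_add_distrib, ← mul_sum]
        exact add_le_add sφ (mul_le_mul_of_nonneg_left (hT b B) (by positivity))) one_pos
  obtain ⟨K', hK, hK'⟩ := (w.and (eventually_ge_atTop (2 * K))).exists
  have lo : ∀ b, ∑ z ∈ B, φ z * E μ b K' z - 175 * (D * R ^ 3) ≤
      ∑ z ∈ B, (g (z + dir b) * φ (z + dir b) - g z * φ z) * E μ b K' z := fun b => by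
    have a1 : ∑ z ∈ B, (φ z * E μ b K' z - 7 * R * D) ≤
        ∑ z ∈ B, (g (z + dir b) * φ (z + dir b) - g z * φ z) * E μ b K' z :=
      sum_le_sum fun z hz => by
        have c1 := mul_le_mul_of_nonneg_right (abs_le.1 (g3 b z hz)).1 (E0 (μ := μ) b K' z)
        have c2 := (mul_le_mul_of_nonneg_left (E_le (μ := μ) b K' z) (abs_nonneg _)).trans
          (hD b z K')
        have c3 := mul_le_mul_of_nonneg_left c2 (by positivity : (0 : ℝ) ≤ 7 * R)
        nlinarith
    rw [sum_sub_distrib, sum_const, nsmul_eq_mul] at a1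
    have a2 := mul_le_mul_of_nonneg_right cB (by positivity : (0 : ℝ) ≤ 7 * R * D)
    nlinarith
  have nn : ∀ b, 0 ≤ ∑ z ∈ B, φ z * E μ b K' z := fun b =>
    sum_nonneg fun z _ => mul_nonneg (h0 z).1 (E0 _ _ _)
  have up : ∑ z ∈ B, φ z * E μ b K' z ≤ 3 * (25 * R ^ 2 + 7 * R * T) + 1 + 350 * (D * R ^ 3) := by
    have := lo true
    have := lo false
    have := nn true
    have := nn false
    cases b <;> linarith
  have f0 : ∀ z, 0 ≤ F μ b K z := fun z => sum_nonneg fun _ _ => sum_nonneg fun _ _ => P0 _ _ _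
  have s1 : ∑ z ∈ J, φ z * F μ b K z ≤ ∑ z ∈ B, φ z * F μ b K z := by
    rw [← sum_filter_ne_zero]
    refine sum_le_sum_of_subset_of_nonneg (fun z hz => ?_) fun z _ _ => mul_nonneg (h0 z).1 (f0 z)
    by_contra h
    exact (mem_filter.1 hz).2 (by rw [z1 z h, zero_mul])
  have s2 : ∑ z ∈ B, φ z * F μ b K z ≤ ∑ z ∈ B, (φ z + φ z * E μ b K' z) :=
    sum_le_sum fun z _ => by
      have := mul_le_mul_of_nonneg_left ((F_le hμ b K z).trans
        (add_le_add le_rfl (E_mono b hK' z))) (h0 z).1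
      linarith
  rw [sum_add_distrib] at s2
  have : 0 ≤ R * T := by positivity
  have : 0 ≤ D * R ^ 3 := by positivity
  nlinarith

end Pool.Agent.MP_151d89_pr.H30W.FMC
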