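import Pool.Agent.MP_151d89_pr.H52E.Spec
import Pool.Agent.MP_151d89_pr.H30W.FM

/-!
The first moment bound in the form used with the pair energy.
-/

set_option autoImplicit false
open MeasureTheory Finset

namespace Pool.Agent.MP_151d89_pr.H30W.FMC
open Pool.Agent.MP_151d89_pr.H82 Pool.Agent.MP_151d89_pr.H33 Pool.Agent.MP_151d89_pr.H67
open Pool.Agent.MP_151d89_pr.H30
open Pool.Agent.MP_151d89_pr.H30.RunAux (pt_pt)
open Pool.Agent.MP_151d89_pr.H27 (Rdg Vly NoRay)

variable {μ : Measure Conf}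

theorem E_rdg (hμ : Gibbs μ) (hN : NoRay μ) (b : Bool) (K : ℕ) (z : ℤ × ℤ) :
    E' μ b K z ≤ ∑ i ∈ range K, μ.real {f | Rdg b (pt b z (-(i : ℤ))) i f} := by
  refine sum_le_sum fun i _ => le_trans ?_
    (sum_le_hasSum (range (K + 1)) (fun _ _ => P0 _ _ _) (H45.hasSum_rdg hμ hN b _ i))
  rw [sum_range_succ']
  exact le_add_of_nonneg_right (P0 _ _ _)

theorem E_vly (hμ : Gibbs μ) (hN : NoRay μ) (b : Bool) (K : ℕ) (z : ℤ × ℤ) :
    E' μ b K z ≤ ∑ j ∈ range K, μ.real {f | Vly b (pt b z (j + 1 : ℕ)) (j + 1) f} := by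
  unfold E'
  rw [sum_comm]
  refine sum_le_sum fun j _ => le_trans (le_of_eq (sum_congr rfl fun i _ => ?_))
    (sum_le_hasSum (range K) (fun _ _ => P0 _ _ _) (H45.hasSum_vly hμ hN b _ (j + 1)))
  have e : pt b (pt b z (j + 1 : ℕ)) (-(j + 1 + i : ℕ)) = pt b z (-(i : ℤ)) := by
    rw [pt_pt]; congr 1; push_cast; ring
  have e' : j + 1 + i = i + j + 1 := by ring
  rw [e, e', P]

theorem fm52 : H52E.FMStmt := by
  refine ⟨2000, by norm_num, fun μ φ U lam TV A h hN h1 n hn hU N b => ?_⟩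
  have hc := core (D := 5 * lam) h.gib hN hn (fun z => ⟨h.h0 z, h1 z⟩)
    (fun z hz => hU z (h.supp z hz)) h.tv (fun b z K => ?_) b U N
  · have := h.tv0
    have := h.lam0
    have a1 : (0 : ℝ) ≤ n * TV := by positivity
    have a2 : (0 : ℝ) ≤ n ^ 2 := by positivity
    refine le_trans hc ?_
    nlinarith
  · have e0 : 0 ≤ E' μ b K z := sum_nonneg fun _ _ => sum_nonneg fun _ _ => P0 _ _ _
    have a1 : E' μ b K z * A (!b) z ≤ 1 :=
      (mul_le_mul (E_vly h.gib hN b K z) (h.A2 _ z) (h.A0 _ z)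
        (sum_nonneg fun _ _ => measureReal_nonneg)).trans (H45.dual' h.gib h.tri b _ z _)
    have a2 : E' μ b K z * H67E.cc μ b z ≤ 1 :=
      (mul_le_mul_of_nonneg_right (E_rdg h.gib hN b K z) measureReal_nonneg).trans
        (H45.dualc h.gib h.tri b z _)
    have a3 : E' μ b K z * H67E.cc μ b (z - dir b) ≤ 1 := by
      have e : H67E.cc μ b (z - dir b) = μ.real {f | Hi b z f} := by
        simp only [H67E.cc, ← hi_add, sub_add_cancel]
      rw [e]
      refine le_trans (mul_le_mul_of_nonneg_right ((E_vly h.gib hN b K z).trans ?_)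
        measureReal_nonneg) (H45.dualc' h.gib h.tri b z (range (K + 1)))
      rw [sum_range_succ']
      exact le_add_of_nonneg_right measureReal_nonneg
    have a4 := mul_le_mul_of_nonneg_right (h.hw b z) e0
    have a5 := mul_le_mul_of_nonneg_left (add_le_add a1 (add_le_add (add_le_add a2 a2)
      (add_le_add a3 a3))) h.lam0
    unfold H67E.ww at a4
    linarith

end Pool.Agent.MP_151d89_pr.H30W.FMC
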