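import Pool.Agent.MP_151d89_pr.H30W.Spec2

/-!
The face identity for labels, monotonicity of labels, and the bound of the step counts by fluxes.
-/

set_option autoImplicit false
open MeasureTheory

namespace Pool.Agent.MP_151d89_pr.H30W
open Pool.Agent.MP_151d89_pr.H82 Pool.Agent.MP_151d89_pr.H33 Pool.Agent.MP_151d89_pr.H67
open Pool.Agent.MP_151d89_pr.H30
open Classical

theorem add_e (x y : ℤ) : ((x, y) : ℤ × ℤ) + dir true = (x + 1, y) := by simp [dir]

theorem add_n (x y : ℤ) : ((x, y) : ℤ × ℤ) + dir false = (x, y + 1) := by simp [dir]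

theorem sub_e (x y : ℤ) : ((x, y) : ℤ × ℤ) - dir true = (x - 1, y) := by simp [dir]

theorem sub_n (x y : ℤ) : ((x, y) : ℤ × ℤ) - dir false = (x, y - 1) := by simp [dir]

/-- the label increases by zero or one along a step -/
theorem lab_step (c : Conf → ℤ) {f : Conf} (hf : Hom f) (b : Bool) (z : ℤ × ℤ) :
    (Lo b z f ∧ lab c f (z + dir b) = lab c f z + 1) ∨
      (¬ Lo b z f ∧ lab c f (z + dir b) = lab c f z) := by
  by_cases h : Lo b z f
  · exact Or.inl ⟨h, lab_lo h⟩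
  · exact Or.inr ⟨h, lab_nlo hf h⟩

theorem lab_hi (c : Conf → ℤ) {f : Conf} (hf : Hom f) (b : Bool) (z : ℤ × ℤ) :
    (Hi b z f ∧ lab c f (z - dir b) = lab c f z - 1) ∨
      (¬ Hi b z f ∧ lab c f (z - dir b) = lab c f z) := by
  have h := lab_step c hf b (z - dir b)
  rw [← hi_add, sub_add_cancel] at h
  rcases h with h | h
  · exact Or.inl ⟨h.1, by omega⟩
  · exact Or.inr ⟨h.1, h.2.symm⟩

/-- the label is monotone and Lipschitz -/
theorem lab_mono (c : Conf → ℤ) {f : Conf} (hf : Hom f) {z w : ℤ × ℤ} (h1 : z.1 ≤ w.1)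
    (h2 : z.2 ≤ w.2) :
    lab c f z ≤ lab c f w ∧ lab c f w ≤ lab c f z + (w.1 - z.1) + (w.2 - z.2) := by
  have a1 := lip hf w z
  have a2 := lip hf z w
  rw [abs_of_nonneg (by omega), abs_of_nonneg (by omega)] at a1
  rw [abs_of_nonpos (by omega), abs_of_nonpos (by omega)] at a2
  unfold lab
  omega

theorem face_aux (g : ℤ → ℝ) {A B C D : ℤ} {p1 p2 p3 p4 : Prop}
    (h1 : (p1 ∧ B = D + 1) ∨ (¬ p1 ∧ B = D)) (h2 : (p2 ∧ C = D + 1) ∨ (¬ p2 ∧ C = D))
    (h3 : (p3 ∧ C = A - 1) ∨ (¬ p3 ∧ C = A)) (h4 : (p4 ∧ B = A - 1) ∨ (¬ p4 ∧ B = A)) :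
    g A - g B - g C + g D =
      ind (p3 ∧ p4) * (g A - g (A - 1)) - ind (p1 ∧ p2) * (g (D + 1) - g D) := by
  rcases h3 with ⟨a3, e3⟩ | ⟨a3, e3⟩ <;> rcases h4 with ⟨a4, e4⟩ | ⟨a4, e4⟩ <;>
    rcases h1 with ⟨a1, e1⟩ | ⟨a1, e1⟩ <;> rcases h2 with ⟨a2, e2⟩ | ⟨a2, e2⟩ <;>
    first
      | (exfalso; omega)
      | (have k1 : g B = g (A - 1) ∨ g B = g A := by rw [e4]; simp
         have q1 := congrArg g e1
         have q2 := congrArg g e2
         have q3 := congrArg g e3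
         have q4 := congrArg g e4
         simp only [ind, a1, a2, a3, a4, and_true, and_false, if_true, if_false]
         linarith)

theorem face_row : FaceStmt := by
  intro c f hf g x y
  have h1 := lab_step c hf true (x, y)
  have h2 := lab_step c hf false (x, y)
  have h3 := lab_hi c hf true (x + 1, y + 1)
  have h4 := lab_hi c hf false (x + 1, y + 1)
  rw [add_e] at h1
  rw [add_n] at h2
  rw [sub_e, add_sub_cancel_right] at h3
  rw [sub_n, add_sub_cancel_right] at h4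
  exact face_aux g h1 h2 h3 h4

theorem int_Xn_le {μ : Measure Conf} [IsProbabilityMeasure μ] (S : Finset (ℤ × ℤ)) (b : Bool)
    (z : ℤ × ℤ) (h : Summable fun t : ℕ => μ.real {f | Leg b z t f ∧ Hi b z f}) :
    ∫ f, Xn S b z f ∂μ ≤ fl μ b z := by
  unfold Xn fl
  rw [integral_finsetSum _ fun t _ => intg
    (mind (measurable_const.and ((mLeg b z t).and (mHi b z)))) fun f => ind_abs _]
  refine le_trans (Finset.sum_le_sum fun t _ => ?_)
    (h.sum_le_tsum (Finset.range S.card) fun t _ => measureReal_nonneg)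
  rw [int_ind μ (mset (measurable_const.and ((mLeg b z t).and (mHi b z))))]
  exact measureReal_mono fun f hf => hf.2

/-- a blocked peak is a step -/
theorem one_le_Xs {S : Finset (ℤ × ℤ)} {z : ℤ × ℤ} (hz : z ∈ S) {f : Conf} (hf : Hom f)
    (hp : Pk z f) (h : Hi true z f ∨ Hi false z f) : 1 ≤ Xs S z f := by
  have hc : 0 < S.card := Finset.card_pos.2 ⟨z, hz⟩
  have key : ∀ b, Leg b z 0 f → Hi b z f → 1 ≤ Xn S b z f := fun b h1 h2 => by
    refine le_trans ?_ (Finset.single_le_sum (f := fun t : ℕ =>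
      ind (pt b z t ∈ S ∧ Leg b z t f ∧ Hi b z f)) (fun t _ => (ind_mem _).1)
      (Finset.mem_range.2 hc))
    exact (ind_pos ⟨by simpa [pt_zero] using hz, h1, h2⟩).ge
  have h1 := Xn_mem S true z f
  have h2 := Xn_mem S false z f
  have h3 := ind_mem (Val z f ∧ Pk z f)
  have a1 := hi_or hf true z
  have a2 := hi_or hf false z
  unfold Xs
  by_cases b1 : Hi true z f <;> by_cases b2 : Hi false z f
  · rw [ind_pos ⟨⟨b1, b2⟩, hp⟩]
    linarith
  · have := key true (leg_zero.2 ⟨hp.1, hp.2, by unfold Hi at b2; simp only [Bool.not_true]; omega⟩)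
      b1
    linarith
  · have := key false
      (leg_zero.2 ⟨hp.2, hp.1, by unfold Hi at b1; simp only [Bool.not_false]; omega⟩) b2
    linarith
  · tauto

theorem intg_J {μ : Measure Conf} [IsFiniteMeasure μ] (S : Finset (ℤ × ℤ)) {c : Conf → ℤ}
    (hc : Measurable c) (j : ℤ) (z : ℤ × ℤ) :
    Integrable (fun f => ind (lab c f z = j) * Xs S z f) μ :=
  intg ((mw hc z fun l => ind (l = j)).mul (mXs S z)) fun f => abs_mul_le (ind_abs _)
    (by rw [abs_of_nonneg (Xs_mem S z f).1]; exact (Xs_mem S z f).2)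

theorem JJ_mono (μ : Measure Conf) (S : Finset (ℤ × ℤ)) (c : Conf → ℤ) (j : ℤ)
    {Q Q' : Finset (ℤ × ℤ)} (h : Q ⊆ Q') : JJ μ S c j Q ≤ JJ μ S c j Q' :=
  Finset.sum_le_sum_of_subset_of_nonneg h fun z _ _ =>
    integral_nonneg fun f => mul_nonneg (ind_mem _).1 (Xs_mem S z f).1

theorem JJ_nonneg (μ : Measure Conf) (S : Finset (ℤ × ℤ)) (c : Conf → ℤ) (j : ℤ)
    (Q : Finset (ℤ × ℤ)) : 0 ≤ JJ μ S c j Q :=
  Finset.sum_nonneg fun z _ => integral_nonneg fun f => mul_nonneg (ind_mem _).1 (Xs_mem S z f).1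

end Pool.Agent.MP_151d89_pr.H30W
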