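import Pool.Agent.MP_151d89_pr.H30W.Spec2
import Pool.Agent.MP_151d89_pr.H95.Mean

/-!
Size, mean and concentration of the labels seen from a far site.
-/

set_option autoImplicit false
open MeasureTheory Filter

namespace Pool.Agent.MP_151d89_pr.H30W
open Pool.Agent.MP_151d89_pr.H82 Pool.Agent.MP_151d89_pr.H33 Pool.Agent.MP_151d89_pr.H67
open Pool.Agent.MP_151d89_pr.H30
open Pool.Agent.MP_151d89_pr.H5 (ell)
open Pool.Agent.MP_151d89_pr.H9 (nb)
open Classical

variable {μ : Measure Conf}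

theorem moff (μ : Measure Conf) (o : ℤ × ℤ) : Measurable (off μ o) := by
  unfold off
  fun_prop

theorem ceil_ell (hμ : Gibbs μ) (o : ℤ × ℤ) : |⌈ell μ o⌉| ≤ |o.1| + |o.2| := by
  have h0 : ell μ (0, 0) = 0 := by simp [ell]
  have h1 := H5.EllAux.part1 hμ o (0, 0)
  have h2 := H5.EllAux.part1 hμ (0, 0) o
  rw [H5.EllAux.d1_comm] at h2
  have e : H5.d1 o (0, 0) = |o.1| + |o.2| := by simp [H5.d1]
  rw [h0, e] at h1 h2
  refine abs_le.2 ⟨Int.le_ceil_iff.2 ?_, Int.ceil_le.2 (by linarith)⟩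
  rw [Int.cast_neg]
  linarith

theorem lab_abs (hμ : Gibbs μ) (o z : ℤ × ℤ) {f : Conf} (hf : Hom f) :
    |lab (off μ o) f z| ≤ 2 * nrm o + 2 * nrm z + 1 := by
  have h1 := ceil_ell hμ o
  have h2 := (lip hf o z).1
  have h3 := (lip hf z o).1
  rw [abs_sub_comm z.1, abs_sub_comm z.2] at h3
  have a1 : |o.1| ≤ nrm o := le_max_left _ _
  have a2 : |o.2| ≤ nrm o := le_max_right _ _
  have a3 : |z.1| ≤ nrm z := le_max_left _ _
  have a4 : |z.2| ≤ nrm z := le_max_right _ _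
  have b1 := abs_sub o.1 z.1
  have b2 := abs_sub o.2 z.2
  have c1 := abs_le.1 h1
  have c2 := abs_le.1 a3
  have c3 := abs_le.1 a4
  unfold lab off
  refine abs_le.2 ⟨?_, ?_⟩ <;> omega

theorem lab_real (μ : Measure Conf) (o z : ℤ × ℤ) (f : Conf) :
    2 * (lab (off μ o) f z : ℝ) ≤ z.1 + z.2 + ((f o : ℝ) - f z) - ell μ o ∧
      (z.1 : ℝ) + z.2 + ((f o : ℝ) - f z) - ell μ o - 2 ≤ 2 * (lab (off μ o) f z : ℝ) := by
  have h1 : 2 * lab (off μ o) f z ≤ z.1 + z.2 + (f o - f z) - ⌈ell μ o⌉ := by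
    unfold lab off
    omega
  have h2 : z.1 + z.2 + (f o - f z) - ⌈ell μ o⌉ - 1 ≤ 2 * lab (off μ o) f z := by
    unfold lab off
    omega
  have h3 : 2 * (lab (off μ o) f z : ℝ) ≤ z.1 + z.2 + ((f o : ℝ) - f z) - ⌈ell μ o⌉ := by
    exact_mod_cast h1
  have h4 : (z.1 : ℝ) + z.2 + ((f o : ℝ) - f z) - ⌈ell μ o⌉ - 1 ≤ 2 * (lab (off μ o) f z : ℝ) := by
    exact_mod_cast h2
  have h5 := Int.le_ceil (ell μ o)
  have h6 := Int.ceil_lt_add_one (ell μ o)
  constructor <;> linarith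

theorem lab_int (hμ : Gibbs μ) (o z : ℤ × ℤ) :
    Integrable (fun f => (lab (off μ o) f z : ℝ)) μ := by
  have := hμ.1
  refine Integrable.of_bound (mw (moff μ o) z fun l => (l : ℝ)).aestronglyMeasurable
    ((2 * nrm o + 2 * nrm z + 1 : ℤ) : ℝ) (hμ.2.1.mono fun f hf => ?_)
  rw [Real.norm_eq_abs]
  exact_mod_cast lab_abs hμ o z hf

theorem lab_mean (hμ : Gibbs μ) (o z : ℤ × ℤ) :
    ∫ f, (lab (off μ o) f z : ℝ) ∂μ ≤ nb (ell μ) z := by
  have := hμ.1
  have i1 := H5.EllAux.intD hμ o z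
  have h : ∫ f, (lab (off μ o) f z : ℝ) ∂μ ≤
      ∫ f : Conf, (((z.1 : ℝ) + z.2 - ell μ o) / 2 + (1 / 2) * ((f o : ℝ) - f z)) ∂μ :=
    integral_mono (lab_int hμ o z) ((integrable_const _).add (i1.const_mul _)) fun f => by
      have := (lab_real μ o z f).1
      dsimp only
      linarith
  rw [integral_add (integrable_const _) (i1.const_mul _), integral_const_mul,
    H5.EllAux.ell_sub hμ] at h
  simp only [integral_const, probReal_univ, smul_eq_mul, one_mul] at h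
  unfold H9.nb
  linarith

theorem dist_nrm (z o : ℤ × ℤ) : dist1 z o ≤ 2 * nrm o + 2 * nrm z := by
  unfold dist1 nrm
  simp only [Int.abs_eq_natAbs]
  omega

theorem lab_tail (hμ : Gibbs μ) (hT : Triv μ) (B η : ℝ) (hη : 0 < η) : ∀ᶠ R : ℝ in atTop,
    ∀ o z : ℤ × ℤ, (nrm o : ℝ) ≤ B * R → (nrm z : ℝ) ≤ B * R →
      μ.real {f | η * R < |(lab (off μ o) f z : ℝ) - nb (ell μ) z|} ≤ 1 / R ^ 12 := by
  have := hμ.1
  have ht : Tendsto (fun R : ℝ => √(√R)) atTop atTop :=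
    Real.tendsto_sqrt_atTop.comp Real.tendsto_sqrt_atTop
  filter_upwards [eventually_ge_atTop 2, eventually_ge_atTop (2 / η),
    ht.eventually_ge_atTop (106 * (12 * √|B| + 5) / η)] with R h1 h2 h3 o z ho hz
  have R0 : 0 < R := by linarith
  have l0 : 0 ≤ Real.log R := Real.log_nonneg (by linarith)
  set s := √(√R) with hs
  have e2 : s ^ 2 = √R := Real.sq_sqrt (Real.sqrt_nonneg _)
  have e4 : (s ^ 2) ^ 2 = R := by rw [e2]; exact Real.sq_sqrt R0.le
  have s1 : 1 ≤ s := Real.one_le_sqrt.2 (Real.one_le_sqrt.2 (by linarith))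
  have lg : Real.log R ≤ 4 * s := by
    have : Real.log R = 4 * Real.log s := by
      rw [← e4, ← pow_mul, Real.log_pow]
      norm_num
    have := Real.log_le_sub_one_of_pos (by linarith : 0 < s)
    linarith
  have d1 : (dist1 z o : ℝ) ≤ 2 * nrm o + 2 * nrm z := by exact_mod_cast dist_nrm z o
  have b1 : B * R ≤ |B| * R := mul_le_mul_of_nonneg_right (le_abs_self B) R0.le
  have d2 : √(dist1 z o) ≤ 2 * √|B| * s ^ 2 := by
    refine Real.sqrt_le_iff.2 ⟨by positivity, ?_⟩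
    rw [mul_pow, mul_pow, e4, Real.sq_sqrt (abs_nonneg B)]
    linarith
  have q1 : 1 ≤ s ^ 2 := one_le_pow₀ s1
  have d3 : 6 * √(dist1 z o) + 5 ≤ (12 * √|B| + 5) * s ^ 2 := by linarith
  have k1 : (26 * Real.log R + 2) * (6 * √(dist1 z o) + 5) ≤
      (106 * s) * ((12 * √|B| + 5) * s ^ 2) :=
    mul_le_mul (by linarith) d3 (by positivity) (by positivity)
  rw [div_le_iff₀ hη] at h3
  rw [div_le_iff₀ hη] at h2
  have k2 : (106 * s) * ((12 * √|B| + 5) * s ^ 2) ≤ η * R := by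
    have := mul_le_mul_of_nonneg_right h3 (by positivity : 0 ≤ s ^ 3)
    rw [← e4]
    linarith
  refine (measureReal_mono fun f hf => ?_).trans
    ((H95.incr hμ hT z o (t := 26 * Real.log R + 2) (by linarith)).trans ?_)
  · have a := lab_real μ o z f
    have hf' : η * R < |(lab (off μ o) f z : ℝ) - nb (ell μ) z| := hf
    unfold H9.nb at hf'
    change _ < |((f o : ℝ) - f z) - (ell μ o - ell μ z)|
    have c1 := le_abs_self (((f o : ℝ) - f z) - (ell μ o - ell μ z))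
    have c2 := neg_abs_le (((f o : ℝ) - f z) - (ell μ o - ell μ z))
    rcases lt_abs.1 hf' with c | c <;> linarith [a.1, a.2]
  · have e : Real.exp (-((26 * Real.log R + 2) / 2)) ≤ (R ^ 13)⁻¹ := by
      rw [← Real.exp_log (pow_pos R0 13), ← Real.exp_neg, Real.log_pow]
      exact Real.exp_le_exp.2 (by push_cast; linarith)
    refine (mul_le_mul_of_nonneg_left e (by norm_num)).trans ?_
    rw [← div_eq_mul_inv, div_le_div_iff₀ (by positivity) (by positivity), pow_succ R 12]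
    have := mul_le_mul_of_nonneg_left h1 (pow_pos R0 12).le
    linarith

theorem lab_row : LabStmt := fun μ hμ hT =>
  ⟨fun o _ _ ho => ⟨moff μ o, fun f g h => by unfold off; rw [h o ho]⟩,
    fun o z _ hf => lab_abs hμ o z hf, fun o z => ⟨lab_int hμ o z, lab_mean hμ o z⟩,
    lab_tail hμ hT⟩

end Pool.Agent.MP_151d89_pr.H30W
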