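import Pool.Agent.MP_151d89_pr.H30W.Basic
import Pool.Agent.MP_151d89_pr.H45.Flux

/-!
Finite first moments of the fluxes and the stream function.
-/

set_option autoImplicit false
open MeasureTheory Finset

namespace Pool.Agent.MP_151d89_pr.H30W
open Pool.Agent.MP_151d89_pr.H82 Pool.Agent.MP_151d89_pr.H33 Pool.Agent.MP_151d89_pr.H67
open Pool.Agent.MP_151d89_pr.H30
open Pool.Agent.MP_151d89_pr.H45 (pw Up)
open Classical

variable {μ : Measure Conf}

theorem leg_split (hμ : Gibbs μ) (b : Bool) (z : ℤ × ℤ) (t : ℕ) : μ.real {f | Leg b z t f} =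
    μ.real {f | Leg b z t f ∧ Hi b z f} + pw μ b z t :=
  H45.real_split hμ (mset (mHi b z)) (fun _ _ => Iff.rfl) fun _ _ => Iff.rfl

theorem hasSum_pw (hμ : Gibbs μ) (hN : NoDesc μ) (b : Bool) (z : ℤ × ℤ) :
    HasSum (pw μ b z) (μ.real {f | Up b z 0 f}) := by
  simpa only [Nat.cast_zero, neg_zero, pt_zero, add_zero] using H45.hasSum_up hμ hN b z 0

theorem sum_step (hμ : Gibbs μ) (hN : NoDesc μ) {b : Bool} {z : ℤ × ℤ}
    (h : Summable fun t : ℕ => μ.real {f | Leg b z t f}) :
    Summable fun t : ℕ => μ.real {f | Leg b (z + dir b) t f} := by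
  have h1 := ((summable_nat_add_iff 1).2 h).add (hasSum_pw hμ hN b (z + dir b)).summable
  refine h1.congr fun t => ?_
  rw [leg_split hμ b (z + dir b) t]
  congr 1
  exact H45.real_congr hμ fun _ hf => leg_succ hf

theorem sum_base (hμ : Gibbs μ) (hT : Triv μ) {b : Bool} {z : ℤ × ℤ}
    (h : 0 < μ.real {f | ¬ Hi b z f}) : Summable fun t : ℕ => μ.real {f | Leg b z t f} := by
  have := hμ.1
  refine summable_of_sum_range_le (c := 1 / μ.real {f | ¬ Hi b z f})
    (fun _ => measureReal_nonneg) fun T => ?_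
  have h1 := H45.ahDn_sum hμ hT (b := b) (z := z) (H45.meas_Hi b z).compl MeasurableSet.univ
    (H45.inc_Hi b z).compl (range T) (fun f hf h => (H45.not_hi hf b z).1 h)
    fun _ _ _ _ _ _ => trivial
  rw [probReal_univ] at h1
  rw [le_div_iff₀' h]
  exact h1

theorem ex_base (hμ : Gibbs μ) (hN : NoDesc μ) (b : Bool) (z : ℤ × ℤ) :
    ∃ j : ℕ, 0 < μ.real {f | ¬ Hi b (pt b z (-(j : ℤ))) f} := by
  have := hμ.1
  by_contra hc
  have h1 : ∀ j : ℕ, ∀ᵐ f ∂μ, Hi b (pt b z (-(j : ℤ))) f := fun j => by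
    have h0 : μ.real {f | ¬ Hi b (pt b z (-(j : ℤ))) f} = 0 :=
      le_antisymm (not_lt.1 fun h => hc ⟨j, h⟩) measureReal_nonneg
    rwa [measureReal_eq_zero_iff] at h0
  obtain ⟨f, hf, hf'⟩ := ((ae_all_iff.2 h1).and hN).exists
  obtain ⟨l, hl⟩ := (hf' b z).2
  refine hl ?_
  clear hl
  induction l with
  | zero => simp [pt_zero]
  | succ l ih =>
    have a := hf l
    have e : -(l : ℤ) - 1 = -((l + 1 : ℕ) : ℤ) := by push_cast; ring
    unfold Hi at a
    rw [H45.pt_sub, e] at a
    omega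

theorem summable_leg (hμ : Gibbs μ) (hT : Triv μ) (hN : NoDesc μ) (b : Bool) (z : ℤ × ℤ) :
    Summable fun t : ℕ => μ.real {f | Leg b z t f} := by
  obtain ⟨j, hj⟩ := ex_base hμ hN b z
  have h : ∀ i : ℕ, Summable fun t : ℕ => μ.real {f | Leg b (pt b z (-(j : ℤ) + i)) t f} := by
    intro i
    induction i with
    | zero => simpa only [Nat.cast_zero, add_zero] using sum_base hμ hT hj
    | succ i ih =>
      have h1 := sum_step hμ hN ih
      rw [H45.pt_add, add_assoc] at h1
      simpa only [Nat.cast_add, Nat.cast_one] using h1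
  simpa only [neg_add_cancel, pt_zero] using h j

theorem summable_fl (hμ : Gibbs μ) (hT : Triv μ) (hN : NoDesc μ) (b : Bool) (z : ℤ × ℤ) :
    Summable fun t : ℕ => μ.real {f | Leg b z t f ∧ Hi b z f} := by
  have := hμ.1
  exact (summable_leg hμ hT hN b z).of_nonneg_of_le (fun _ => measureReal_nonneg) fun t =>
    measureReal_mono fun _ h => h.1

theorem al_fl (hμ : Gibbs μ) (hT : Triv μ) (hN : NoDesc μ) (b : Bool) (z : ℤ × ℤ) :
    al μ b z = fl μ b z + μ.real {f | Up b z 0 f} := by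
  rw [← (hasSum_pw hμ hN b z).tsum_eq, al, fl,
    ← (summable_fl hμ hT hN b z).tsum_add (hasSum_pw hμ hN b z).summable]
  exact tsum_congr (leg_split hμ b z)

theorem al_fl' (hμ : Gibbs μ) (hT : Triv μ) (hN : NoDesc μ) (b : Bool) (z : ℤ × ℤ) :
    al μ b z = μ.real {f | Leg b z 0 f} + fl μ b (z + dir b) := by
  rw [H45.fl_leg hμ, al, (summable_leg hμ hT hN b z).tsum_eq_zero_add]

theorem sum_row : SumStmt := by
  intro μ hμ hT hN b z
  have := hμ.1
  have h1 := al_fl hμ hT hN b z
  have h2 : μ.real {f | Up b z 0 f} ≤ 1 := measureReal_le_one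
  have h3 : 0 ≤ μ.real {f | Up b z 0 f} := measureReal_nonneg
  exact ⟨summable_leg hμ hT hN b z, summable_fl hμ hT hN b z,
    tsum_nonneg fun _ => measureReal_nonneg, by linarith, by linarith, al_fl' hμ hT hN b z,
    H45.ah0 hμ hT b z⟩

theorem ind_two (hμ : Gibbs μ) {p q r s : Conf → Prop} (hp : Measurable p) (hq : Measurable q)
    (hr : Measurable r) (hs : Measurable s)
    (h : ∀ f, Hom f → (p f ∧ q f ↔ r f ∧ s f) ∧ (p f ∨ q f ↔ r f ∨ s f)) :
    μ.real {f | p f} + μ.real {f | q f} = μ.real {f | r f} + μ.real {f | s f} := by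
  have := hμ.1
  have i : ∀ {u : Conf → Prop}, Measurable u → Integrable (fun f => ind (u f)) μ := fun hu =>
    intg (B := 1) (mind hu) fun f => ind_abs _
  rw [← int_ind μ (mset hp), ← int_ind μ (mset hq), ← int_ind μ (mset hr), ← int_ind μ (mset hs),
    ← integral_add (i hp) (i hq), ← integral_add (i hr) (i hs)]
  refine integral_congr_ae (hμ.2.1.mono fun f hf => ?_)
  have := h f hf
  by_cases a : p f <;> by_cases b : q f <;> by_cases c : r f <;> by_cases d : s f <;>
    simp_all [ind]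

theorem up_zero {b : Bool} {z : ℤ × ℤ} {f : Conf} : Up b z 0 f ↔
    Hi b z f ∧ Hi (!b) z f ∧ f (z + dir (!b)) = f z + 1 := by
  constructor
  · intro h
    have h1 := h.1 1 le_rfl
    have h2 := h.2 0 le_rfl
    simp only [Nat.cast_zero, neg_zero, pt_zero, add_zero, Nat.cast_one, pt_m1] at h1 h2
    exact ⟨h1, h2.2, h2.1⟩
  · rintro ⟨h1, h2, h3⟩
    refine ⟨fun j hj => ?_, fun j hj => ?_⟩
    · rcases (by omega : j = 0 ∨ j = 1) with rfl | rfl
      · simp [pt_zero]
      · rw [Nat.cast_one, pt_m1]; exact h1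
    · obtain rfl : j = 0 := by omega
      simp only [Nat.cast_zero, neg_zero, pt_zero, add_zero]
      exact ⟨h3, h2⟩

theorem tu_zero {b : Bool} {z : ℤ × ℤ} {f : Conf} : TU b z 0 f ↔
    Hi b z f ∧ Hi (!b) z f ∧ f (z + dir (!b)) = f z + 1 ∧ f (z + dir b) = f z + 1 := by
  constructor
  · intro h
    have := tu_facts h
    exact ⟨this.1, this.2.1, this.2.2.1, this.2.2.2.1 rfl⟩
  · rintro ⟨h1, h2, h3, h4⟩
    refine ⟨fun j hj => ?_, h1, by simpa [pt_one] using h4, fun j hj => ?_⟩
    · obtain rfl : j = 0 := by omega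
      simp [pt_zero]
    · obtain rfl : j = 0 := by omega
      simp only [Nat.cast_zero, pt_zero, sub_zero]
      exact ⟨h3, h2⟩

/-- conservation of the current at a site -/
theorem conserv (hμ : Gibbs μ) (hT : Triv μ) (hN : NoDesc μ) (z : ℤ × ℤ) :
    fl μ true z + fl μ false z - fl μ true (z + dir true) - fl μ false (z + dir false) =
      μ.real {f | Pk z f} - μ.real {f | Val z f} := by
  have a1 := al_fl hμ hT hN true z
  have a2 := al_fl hμ hT hN false z
  have a3 := al_fl' hμ hT hN true z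
  have a4 := al_fl' hμ hT hN false z
  have a5 := rev0 hμ true z 0
  have mU : ∀ b, Measurable (Up b z 0) := fun b => measurableSet_setOfPred.1 (H45.meas_Up b z 0)
  have st : ∀ f, Hom f → _ := fun f hf =>
    And.intro (And.intro (hi_or hf true z) (hi_or hf false z))
      (And.intro (NullP.step hf true z) (NullP.step hf false z))
  have b1 := ind_two hμ (mLeg true z 0) (mLeg false z 0) ((mPk z).and (mVal z).not)
    (mTD true z 0) fun f hf => by
      have := st f hf
      simp only [TD, leg_zero, Pk, Val, Hi, Lo, Bool.not_true, Bool.not_false]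
      omega
  have b2 := ind_two hμ (mU true) (mU false) ((mVal z).and (mPk z).not)
    (mTU true z 0) fun f hf => by
      have := st f hf
      simp only [tu_zero, up_zero, Pk, Val, Hi, Lo, Bool.not_true, Bool.not_false]
      omega
  have b3 := ind_two hμ (mPk z) ((mVal z).and (mPk z).not) (mVal z) ((mPk z).and (mVal z).not)
    fun f _ => by tauto
  linarith

/-- the face identity for probabilities -/
theorem face_p (hμ : Gibbs μ) (b : Bool) (z : ℤ × ℤ) :
    μ.real {f | Val (z + dir b + dir (!b)) f} + μ.real {f | Lo b z f} =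
      μ.real {f | Pk z f} + μ.real {f | Lo b (z + dir (!b)) f} := by
  refine ind_two hμ (mVal _) (mLo _ _) (mPk _) (mLo _ _) fun f hf => ?_
  have a1 := NullP.step hf b z
  have a2 := NullP.step hf (!b) z
  have a3 := NullP.step hf b (z + dir (!b))
  have a4 := NullP.step hf (!b) (z + dir b)
  have e : z + dir (!b) + dir b = z + dir b + dir (!b) := add_right_comm _ _ _
  have e1 : z + dir b + dir (!b) - dir b = z + dir (!b) := by abel
  rw [e] at a3
  cases b <;>
    simp only [Pk, Val, Hi, Lo, Bool.not_true, Bool.not_false, add_sub_cancel_right] at * <;>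
    simp only [e, e1] <;> omega

theorem anti (g : ℤ → ℝ) : ∃ G : ℤ → ℝ, G 0 = 0 ∧ ∀ n, G (n + 1) - G n = g n := by
  refine ⟨fun n => ∑ i ∈ range n.toNat, g i - ∑ i ∈ range (-n).toNat, g (-i - 1), by simp,
    fun n => ?_⟩
  rcases le_or_gt 0 n with h | h
  · obtain ⟨k, rfl⟩ := Int.eq_ofNat_of_zero_le h
    have e1 : ((k : ℤ) + 1).toNat = k + 1 := by omega
    have e2 : (-((k : ℤ) + 1)).toNat = 0 := by omega
    have e3 : (-(k : ℤ)).toNat = 0 := by omega
    simp only [e1, e2, e3, Int.toNat_natCast, sum_range_succ]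
    ring
  · obtain ⟨k, rfl⟩ : ∃ k : ℕ, n = -(k : ℤ) - 1 := ⟨(-n - 1).toNat, by omega⟩
    have e1 : (-(k : ℤ) - 1 + 1).toNat = 0 := by omega
    have e2 : (-(-(k : ℤ) - 1 + 1)).toNat = k := by omega
    have e3 : (-(k : ℤ) - 1).toNat = 0 := by omega
    have e4 : (-(-(k : ℤ) - 1)).toNat = k + 1 := by omega
    simp only [e1, e2, e3, e4, sum_range_succ]
    ring

/-- a closed one-form on the square lattice is exact -/
theorem potential (h v : ℤ × ℤ → ℝ)
    (hc : ∀ x y, h (x, y) + v (x + 1, y) = v (x, y) + h (x, y + 1)) :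
    ∃ Ψ : ℤ × ℤ → ℝ, Ψ 0 = 0 ∧ ∀ x y, Ψ (x + 1, y) - Ψ (x, y) = h (x, y) ∧
      Ψ (x, y + 1) - Ψ (x, y) = v (x, y) := by
  obtain ⟨H, H0, H1⟩ := anti fun x => h (x, 0)
  choose V V0 V1 using fun x => anti fun y => v (x, y)
  refine ⟨fun z => H z.1 + V z.1 z.2, by simp [H0, V0], fun x y => ⟨?_, by
    simp only
    linarith [V1 x y]⟩⟩
  simp only
  induction y using Int.induction_on with
  | zero => linarith [H1 x, V0 x, V0 (x + 1)]
  | succ i ih => linarith [V1 x i, V1 (x + 1) i, hc x i]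
  | pred i ih =>
    have a1 := V1 x (-i - 1)
    have a2 := V1 (x + 1) (-i - 1)
    have a3 := hc x (-i - 1)
    rw [sub_add_cancel] at a1 a2 a3
    linarith

theorem psi_row : PsiStmt := by
  intro μ hμ hT hN
  have e1 : ∀ x y : ℤ, ((x, y) : ℤ × ℤ) + dir true = (x + 1, y) := fun x y => by simp [dir]
  have e2 : ∀ x y : ℤ, ((x, y) : ℤ × ℤ) + dir false = (x, y + 1) := fun x y => by simp [dir]
  obtain ⟨Ψ, h0, h⟩ := potential
    (fun z => fl μ false z + μ.real {f | Val (z + dir true) f} - μ.real {f | Lo true z f} / 2)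
    (fun z => -(fl μ true z + μ.real {f | Val z f} - μ.real {f | Lo false z f} / 2)) fun x y => by
      have a1 := conserv hμ hT hN (x, y)
      have a2 := face_p hμ true (x, y)
      have a3 := face_p hμ false (x, y)
      simp only [Bool.not_true, Bool.not_false, e1, e2] at a1 a2 a3 ⊢
      linarith
  refine ⟨Ψ, h0, fun z => ?_⟩
  obtain ⟨x, y⟩ := z
  obtain ⟨h1, h2⟩ := h x y
  rw [e1, e2]
  rw [e1] at h1
  exact ⟨h1, by linarith⟩

end Pool.Agent.MP_151d89_pr.H30W
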