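import Pool.Agent.MP_151d89_pr.H30W.Basic
import Pool.Agent.MP_151d89_pr.H9.Spec

/-!
The Ward block, second part: pressure bound, chord inequality, zero pressure, finite forms.
-/

set_option autoImplicit false
open MeasureTheory Filter

namespace Pool.Agent.MP_151d89_pr.H30W
open Pool.Agent.MP_151d89_pr.H82 Pool.Agent.MP_151d89_pr.H33 Pool.Agent.MP_151d89_pr.H67
open Pool.Agent.MP_151d89_pr.H30
open Pool.Agent.MP_151d89_pr.H5 (ell)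
open Pool.Agent.MP_151d89_pr.H9 (nb Par gap)
open Classical

/-- the offset of the labels seen from the far site o -/
noncomputable def off (μ : Measure Conf) (o : ℤ × ℤ) (f : Conf) : ℤ := f o - ⌈ell μ o⌉

/-- mean number of steps from label j + 1 to label j at the sites of Q -/
noncomputable def JJ (μ : Measure Conf) (S : Finset (ℤ × ℤ)) (c : Conf → ℤ) (j : ℤ)
    (Q : Finset (ℤ × ℤ)) : ℝ :=
  ∑ z ∈ Q, ∫ f, ind (lab c f z = j) * Xs S z f ∂μ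

/-- the offset is measurable and does not see the rectangle -/
def OffOk (c : Conf → ℤ) (a b : ℤ × ℤ) : Prop :=
  Measurable c ∧ ∀ f g : Conf, (∀ y, y ∉ Finset.Icc a b → f y = g y) → c f = c g

/-- Row Face: the mixed difference of a function of the label -/
def FaceStmt : Prop :=
  ∀ (c : Conf → ℤ) (f : Conf), Hom f → ∀ (g : ℤ → ℝ) (x y : ℤ),
    g (lab c f (x + 1, y + 1)) - g (lab c f (x + 1, y)) - g (lab c f (x, y + 1)) +
        g (lab c f (x, y)) =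
      ind (Val (x + 1, y + 1) f) * (g (lab c f (x + 1, y + 1)) - g (lab c f (x + 1, y + 1) - 1)) -
        ind (Pk (x, y) f) * (g (lab c f (x, y) + 1) - g (lab c f (x, y)))

/-- Row Alt: valleys and peaks of one line alternate -/
def AltStmt : Prop :=
  ∀ (c : Conf → ℤ) (f : Conf), Hom f → ∀ (R T : Finset (ℤ × ℤ)) (l : ℤ),
    (∀ z ∈ R, Val z f → lab c f z = l → z ∉ T → ∃ x' : ℤ, l ≤ lab c f (x', z.2 - 1) ∧
      ∀ x : ℤ, z.1 ≤ x → x < x' → (x, z.2 - 1) ∈ R) →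
    ∑ z ∈ R, (ind (Val z f ∧ lab c f z = l) - ind (Pk z f ∧ lab c f z + 1 = l)) ≤
      ∑ z ∈ T, ind (Val z f ∧ lab c f z = l)

/-- Row Lab: size, mean and concentration of the labels -/
def LabStmt : Prop :=
  ∀ μ : Measure Conf, Gibbs μ → Triv μ →
    (∀ o a b : ℤ × ℤ, o ∉ Finset.Icc a b → OffOk (off μ o) a b) ∧
    (∀ (o z : ℤ × ℤ) (f : Conf), Hom f → |lab (off μ o) f z| ≤ 2 * nrm o + 2 * nrm z + 1) ∧
    (∀ o z : ℤ × ℤ, Integrable (fun f => (lab (off μ o) f z : ℝ)) μ ∧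
      ∫ f, (lab (off μ o) f z : ℝ) ∂μ ≤ nb (ell μ) z) ∧
    ∀ B η : ℝ, 0 < η → ∀ᶠ R : ℝ in atTop, ∀ o z : ℤ × ℤ, (nrm o : ℝ) ≤ B * R →
      (nrm z : ℝ) ≤ B * R →
        μ.real {f | η * R < |(lab (off μ o) f z : ℝ) - nb (ell μ) z|} ≤ 1 / R ^ 12

/-- Row PB: the pressure bound above the corner (p.1, q.2) -/
def PBStmt : Prop :=
  ∀ μ : Measure Conf, Gibbs μ → Triv μ → NoDesc μ → ∀ Ψ, IsPsi μ Ψ →
    ∀ (a b o p q : ℤ × ℤ) (m0 j : ℤ) (M : ℝ) (Q : Finset (ℤ × ℤ)), o ∉ Finset.Icc a b →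
      a.1 ≤ p.1 → a.2 ≤ q.2 → p.1 ≤ q.1 → q.2 ≤ p.2 → q.1 ≤ b.1 → p.2 ≤ b.2 → m0 ≤ j → 0 ≤ M →
      (∀ f, Hom f → (m0 : ℝ) - lab (off μ o) f (p.1, q.2) ≤ M) → Q ⊆ Finset.Icc a b →
      (∀ z ∈ Q, p.1 + (j - m0) < z.1 ∧ q.2 + (j - m0) < z.2) →
        JJ μ (Finset.Icc a b) (off μ o) j Q ≤
          Ψ q - Ψ p + (nb (ell μ) p + nb (ell μ) q) / 2 - 2 * m0 + j +
            (10 * ((Finset.Icc a b).card : ℝ) ^ 2 + M) *
              μ.real {f | lab (off μ o) f p ≤ m0 ∨ lab (off μ o) f q ≤ m0}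

/-- the position of the bunch of levels for one configuration -/
def GeoF (c : Conf → ℤ) (P : Par) (f : Conf) : Prop :=
  P.k2 ≤ lab c f (P.u1 + P.a1, P.a1) ∧ P.k2 ≤ lab c f (P.u2 + P.a2, P.a2) ∧
    lab c f (P.u + P.b', P.b') ≤ P.k' ∧ lab c f (P.u + P.b'', P.b'') ≤ P.k1 ∧
    lab c f (P.X0, P.X0 - P.u1) < P.k1 ∧ lab c f (P.u2 + P.Y1, P.Y1) < P.k1

/-- Row CHF: the chord inequality with the pressure terms -/
def CHFStmt : Prop :=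
  ∀ μ : Measure Conf, Gibbs μ → ∀ (N : ℕ) (c : Conf → ℤ) (P : Par),
    OffOk c (-(4 * N : ℤ), -(4 * N : ℤ)) (4 * N, 4 * N) → 1 ≤ N → P.bd N → P.u1 < P.u →
    P.u < P.u2 → P.k1 ≤ P.k' → P.k' ≤ P.k2 → P.b'' ≤ P.b' →
      gap P ≤ ((P.u : ℝ) - P.u1) * (P.u2 - P.u) *
          JJ μ (Finset.Icc (-(4 * N : ℤ), -(4 * N : ℤ)) (4 * N, 4 * N)) c P.k1
            (Finset.Icc (P.X0, P.Y1) (4 * N, 4 * N)) +
        ((P.u2 : ℝ) - P.u1) * ∑ j ∈ Finset.Ioo P.k1 P.k2,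
          JJ μ (Finset.Icc (-(4 * N : ℤ), -(4 * N : ℤ)) (4 * N, 4 * N)) c j
            (Finset.Icc (P.X0, P.Y1) (4 * N, 4 * N)) +
        10 ^ 6 * (N : ℝ) ^ 6 * μ.real {f | ¬ GeoF c P f}

/-- Row ZF: the pressure does not grow when the lines leave through the bottom -/
def ZFStmt : Prop :=
  ∀ μ : Measure Conf, Gibbs μ → ∀ (a b : ℤ × ℤ) (c : Conf → ℤ) (s0 β X j : ℤ)
    (Q : Finset (ℤ × ℤ)), OffOk c a b → 0 ≤ s0 → 1 ≤ β → 0 ≤ X → 0 ≤ j → a.1 ≤ s0 →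
    a.2 ≤ -(2 * β) → X ≤ b.1 → Q ⊆ Finset.Icc a b →
    (∀ z ∈ Q, s0 + j < z.1 ∧ j - β < z.2) →
      JJ μ (Finset.Icc a b) c j Q ≤
        JJ μ (Finset.Icc a b) c 0 (Finset.Icc (s0 + 1, 1 - 2 * β) b) + (j : ℝ) * X / β +
          ((Finset.Icc a b).card : ℝ) * μ.real {f | lab c f (X, -(2 * β)) < j}

end Pool.Agent.MP_151d89_pr.H30W
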