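import Pool.Agent.MP_151d89_pr.H30W.Basic

/-!
The labelled Ward inequality.
-/

set_option autoImplicit false
open MeasureTheory

namespace Pool.Agent.MP_151d89_pr.H30W
open Pool.Agent.MP_151d89_pr.H82 Pool.Agent.MP_151d89_pr.H33 Pool.Agent.MP_151d89_pr.H67
open Pool.Agent.MP_151d89_pr.H30
open Classical

namespace WardP

theorem conv {p q z : ℤ × ℤ} {b : Bool} {t j : ℕ} (hz : z ∈ Finset.Icc p q)
    (ht : pt b z t ∈ Finset.Icc p q) (hj : j ≤ t) : pt b z j ∈ Finset.Icc p q := by
  cases b <;> simp only [Finset.mem_Icc, Prod.le_def, pt_true, pt_false] at hz ht ⊢ <;> omega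

theorem lt_card {p q z : ℤ × ℤ} {b : Bool} {t : ℕ} (hz : z ∈ Finset.Icc p q)
    (ht : pt b z t ∈ Finset.Icc p q) : t < (Finset.Icc p q).card := by
  have := Finset.card_le_card_of_injOn (s := Finset.range (t + 1)) (t := Finset.Icc p q)
    (fun j : ℕ => pt b z j) (fun j hj => by
      simp only [Finset.coe_range, Set.mem_Iio] at hj
      exact conv hz ht (by omega))
    (fun i _ j _ h => by
      cases b <;> simp only [pt_true, pt_false, Prod.ext_iff] at h <;> omega)
  rw [Finset.card_range] at this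
  omega

/-- the lengths of the towers with upper end z inside the rectangle -/
noncomputable def Ib (S : Finset (ℤ × ℤ)) (b : Bool) (z : ℤ × ℤ) : Finset ℕ :=
  (Finset.range (S.card + 1)).filter fun t => pt b z t ∈ S

theorem shift {p q z : ℤ × ℤ} (hz : z ∈ Finset.Icc p q) (b : Bool) {f : Conf} (hf : Hom f) :
    Xn (Finset.Icc p q) b (z + dir b) f - Xn (Finset.Icc p q) b z f =
      ∑ t ∈ Ib (Finset.Icc p q) b z, ind (TD b z t f) - ind (Leg b z 0 f) := by
  set S := Finset.Icc p q with hS
  have h1 : ∑ t ∈ Finset.range (S.card + 1), ind (pt b z t ∈ S ∧ Leg b z t f) =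
      Xn S b (z + dir b) f + ind (Leg b z 0 f) := by
    rw [Finset.sum_range_succ']
    congr 1
    · refine Finset.sum_congr rfl fun t _ => congrArg ind (propext ?_)
      rw [leg_succ hf, pt_add]
      push_cast
      rfl
    · simp [pt_zero, hz]
  have h2 : ∑ t ∈ Finset.range (S.card + 1), ind (pt b z t ∈ S ∧ Leg b z t f) =
      Xn S b z f + ∑ t ∈ Ib S b z, ind (TD b z t f) := by
    have e : Xn S b z f =
        ∑ t ∈ Finset.range (S.card + 1), ind (pt b z t ∈ S ∧ Leg b z t f ∧ Hi b z f) := by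
      rw [Finset.sum_range_succ, ind_neg fun h => lt_irrefl _ (lt_card hz h.1), add_zero, Xn]
    rw [e, Ib, Finset.sum_filter, ← Finset.sum_add_distrib]
    refine Finset.sum_congr rfl fun t _ => ?_
    have := hi_or hf b z
    by_cases a : pt b z t ∈ S <;> by_cases a2 : Leg b z t f <;> by_cases a3 : Hi b z f
    all_goals simp only [ind, TD, a, a2, a3, true_and, and_true, false_and, and_false, if_true,
      if_false, add_zero, zero_add]
    · rw [if_neg (by unfold Hi at a3; omega), add_zero]
    · rw [if_pos (by unfold Hi at a3; omega)]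
  linarith

theorem det {p q : ℤ × ℤ} {c : Conf → ℤ} {w : ℤ × ℤ → ℤ → ℝ} (h0 : ∀ z l, 0 ≤ w z l)
    (hs : ∀ z l, z ∉ Finset.Icc p q → w z l = 0) (b : Bool) {f : Conf} (hf : Hom f) :
    ∑ z ∈ Finset.Icc p q,
        Xn (Finset.Icc p q) b z f * (w (z - dir b) (lab c f z) - w z (lab c f z + 1)) ≤
      ∑ z ∈ Finset.Icc p q, (∑ t ∈ Ib (Finset.Icc p q) b z, ind (TD b z t f) - ind (Leg b z 0 f)) *
        w z (lab c f z + 1) := by
  set S := Finset.Icc p q with hS
  set g : ℤ × ℤ → ℝ := fun z => Xn S b (z + dir b) f * w z (lab c f z + 1) with hg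
  have e1 : ∀ z, Xn S b z f * w (z - dir b) (lab c f z) = g (z - dir b) := fun z => by
    simp only [hg, sub_add_cancel]
    by_cases h : Hi b z f
    · have := lab_lo (c := c) ((hi_add b (z - dir b) f).1 (by rwa [sub_add_cancel]))
      rw [sub_add_cancel] at this
      rw [this]
    · rw [Xn_hi h, zero_mul, zero_mul]
  have e2 : ∑ z ∈ S, g (z - dir b) ≤ ∑ z ∈ S, g z := by
    rw [← Finset.sum_image (s := S) (g := fun z => z - dir b) (f := g)
      fun x _ y _ h => sub_left_injective h]
    rw [← Finset.sum_filter_ne_zero]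
    refine Finset.sum_le_sum_of_subset_of_nonneg (fun z hz => ?_)
      fun z _ _ => mul_nonneg (Xn_mem _ _ _ _).1 (h0 _ _)
    by_contra hc
    exact (Finset.mem_filter.1 hz).2 (by simp only [hg, hs z _ hc, mul_zero])
  simp only [mul_sub, e1, Finset.sum_sub_distrib]
  have e3 : ∑ z ∈ S, (∑ t ∈ Ib S b z, ind (TD b z t f) - ind (Leg b z 0 f)) * w z (lab c f z + 1) =
      ∑ z ∈ S, g z - ∑ z ∈ S, Xn S b z f * w z (lab c f z + 1) := by
    rw [← Finset.sum_sub_distrib]
    refine Finset.sum_congr rfl fun z hz => ?_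
    rw [← shift hz b hf, sub_mul]
  rw [e3]
  linarith

theorem up {μ : Measure Conf} (hμ : Gibbs μ) {p q : ℤ × ℤ} {c : Conf → ℤ} (hc : Measurable c)
    (hc' : ∀ f g : Conf, (∀ y, y ∉ Finset.Icc p q → f y = g y) → c f = c g) {z : ℤ × ℤ}
    (hz : z ∈ Finset.Icc p q) {g : ℤ → ℝ} {B : ℝ} (hg : ∀ l, 0 ≤ g l ∧ g l ≤ B) (b : Bool)
    {I : Finset ℕ} (hI : ∀ t ∈ I, pt b z t ∈ Finset.Icc p q) {r : Conf → Prop} (hr : Measurable r)
    (hr' : ∀ f, ∀ t ∈ I, TU b z t f → r f) :
    ∫ f, (∑ t ∈ I, ind (TD b z t f)) * g (lab c f z + 1) ∂μ ≤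
      ∫ f, ind (r f) * g (lab c f z) ∂μ := by
  have := hμ.1
  have hB : ∀ l, |g l| ≤ B := fun l => by rw [abs_of_nonneg (hg l).1]; exact (hg l).2
  have m1 : Measurable fun f => g (lab c f z + 1) := mw hc z fun l => g (l + 1)
  have m0 : Measurable fun f => g (lab c f z) := mw hc z g
  have i1 : ∀ t, Integrable (fun f => ind (TD b z t f) * g (lab c f z + 1)) μ := fun t =>
    intg ((mind (mTD b z t)).mul m1) fun f => abs_mul_le (ind_abs _) (hB _)
  have i0 : ∀ t, Integrable (fun f => ind (TU b z t f) * g (lab c f z)) μ := fun t =>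
    intg ((mind (mTU b z t)).mul m0) fun f => abs_mul_le (ind_abs _) (hB _)
  have e : ∀ t ∈ I, ∫ f, ind (TD b z t f) * g (lab c f z + 1) ∂μ =
      ∫ f, ind (TU b z t f) * g (lab c f z) ∂μ := fun t ht => by
    rw [← rev hμ b z t m0 fun f => hB _]
    refine integral_congr_ae (ae_of_all _ fun f => ?_)
    have a1 : c (H30.flip (b, z, t) f) = c f := hc' _ _ fun y hy => flip_out f fun h => by
      obtain ⟨j, hj, rfl⟩ := mem_tow.1 h
      exact hy (conv hz (hI t ht) hj)
    have a2 := flip_in (m := (b, z, t)) f (tow_start _)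
    have a3 : lab c (H30.flip (b, z, t) f) z = lab c f z + 1 := by
      unfold lab
      rw [a1, a2]
      dsimp only
      omega
    simp only [a3]
  simp only [Finset.sum_mul]
  rw [integral_finsetSum _ fun t _ => i1 t, Finset.sum_congr rfl e,
    ← integral_finsetSum _ fun t _ => i0 t]
  refine integral_mono (integrable_finsetSum _ fun t _ => i0 t)
    (intg ((mind hr).mul m0) fun f => abs_mul_le (ind_abs _) (hB _)) fun f => ?_
  simp only [← Finset.sum_mul]
  exact mul_le_mul_of_nonneg_right (sum_tu b z f I (hr' f)) (hg _).1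

theorem local1 {f : Conf} (hf : Hom f) (z : ℤ × ℤ) :
    ind (Leg true z 0 f) + ind (Leg false z 0 f) - ind (TD false z 0 f) + ind (Val z f ∧ Pk z f) =
      ind (Pk z f) := by
  have h1 := hi_or hf true z
  have h2 := hi_or hf false z
  simp only [TD, leg_zero, Val, Pk, Hi, Bool.not_true, Bool.not_false]
  have n1 : ¬ f z + 1 = f z - 1 := by omega
  have n2 : ¬ f z - 1 = f z + 1 := by omega
  by_cases a : Lo true z f <;> by_cases a2 : Lo false z f <;> rcases h1 with h1 | h1 <;>
    rcases h2 with h2 | h2 <;> simp only [ind, a, a2, h1, h2, n1, n2] <;> simp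

theorem local2 (f : Conf) (z : ℤ × ℤ) :
    ind (Val z f ∧ ¬ Lo false z f) + ind (Val z f ∧ Lo false z f ∧ ¬ Lo true z f) +
      ind (Val z f ∧ Pk z f) = ind (Val z f) := by
  simp only [Pk]
  by_cases a : Lo true z f <;> by_cases a2 : Lo false z f <;> by_cases a3 : Val z f <;>
    simp [ind, a, a2, a3]

end WardP

open WardP

theorem ward_row : WardStmt := by
  intro μ hμ p q c w B hc hc' hw hs
  have := hμ.1
  set S := Finset.Icc p q with hS
  have hB : ∀ z l, |w z l| ≤ B := fun z l => by rw [abs_of_nonneg (hw z l).1]; exact (hw z l).2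
  have hB2 : ∀ z z' l l', |w z l - w z' l'| ≤ B := fun z z' l l' => by
    have h1 := hw z l
    have h2 := hw z' l'
    rw [abs_le]
    constructor <;> linarith
  have m0 : ∀ z z', Measurable fun f => w z' (lab c f z) := fun z z' => mw hc z (w z')
  have m1 : ∀ z, Measurable fun f => w z (lab c f z + 1) := fun z => mw hc z fun l => w z (l + 1)
  have iX : ∀ b z, Integrable
      (fun f => Xn S b z f * (w (z - dir b) (lab c f z) - w z (lab c f z + 1))) μ := fun b z =>
    intg ((mXn S b z).mul ((m0 z _).sub (m1 z))) fun f => abs_mul_le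
      (by rw [abs_of_nonneg (Xn_mem S b z f).1]; exact (Xn_mem S b z f).2) (hB2 _ _ _ _)
  have i0 : ∀ z {r : Conf → Prop}, Measurable r →
      Integrable (fun f => ind (r f) * w z (lab c f z)) μ := fun z r hr =>
    intg ((mind hr).mul (m0 z z)) fun f => abs_mul_le (ind_abs _) (hB _ _)
  have i1 : ∀ z {r : Conf → Prop}, Measurable r →
      Integrable (fun f => ind (r f) * w z (lab c f z + 1)) μ := fun z r hr =>
    intg ((mind hr).mul (m1 z)) fun f => abs_mul_le (ind_abs _) (hB _ _)
  have iV : ∀ z, Integrable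
      (fun f => ind (Val z f ∧ Pk z f) * (w z (lab c f z) - w z (lab c f z + 1))) μ := fun z =>
    intg ((mind ((mVal z).and (mPk z))).mul ((m0 z z).sub (m1 z))) fun f =>
      abs_mul_le (ind_abs _) (hB2 _ _ _ _)
  have iD : ∀ b z (I : Finset ℕ), Integrable
      (fun f => (∑ t ∈ I, ind (TD b z t f)) * w z (lab c f z + 1)) μ := fun b z I => by
    simp only [Finset.sum_mul]
    exact integrable_finsetSum _ fun t _ => i1 z (mTD b z t)
  have iR : ∀ z, Integrable (fun f =>
      (∑ t ∈ Ib S true z, ind (TD true z t f)) * w z (lab c f z + 1) +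
        (∑ t ∈ (Ib S false z).erase 0, ind (TD false z t f)) * w z (lab c f z + 1) +
        ind (Val z f ∧ Pk z f) * w z (lab c f z) - ind (Pk z f) * w z (lab c f z + 1)) μ :=
    fun z => (((iD true z _).add (iD false z _)).add (i0 z ((mVal z).and (mPk z)))).sub
      (i1 z (mPk z))
  refine le_trans ?_ (Finset.sum_le_sum (f := fun z => ∫ f,
      ((∑ t ∈ Ib S true z, ind (TD true z t f)) * w z (lab c f z + 1) +
        (∑ t ∈ (Ib S false z).erase 0, ind (TD false z t f)) * w z (lab c f z + 1) +
        ind (Val z f ∧ Pk z f) * w z (lab c f z) - ind (Pk z f) * w z (lab c f z + 1)) ∂μ)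
      fun z hz => ?_)
  · have iL : ∀ z, Integrable (fun f =>
        Xn S true z f * (w (z - dir true) (lab c f z) - w z (lab c f z + 1)) +
          Xn S false z f * (w (z - dir false) (lab c f z) - w z (lab c f z + 1)) +
          ind (Val z f ∧ Pk z f) * (w z (lab c f z) - w z (lab c f z + 1))) μ :=
      fun z => ((iX true z).add (iX false z)).add (iV z)
    rw [← integral_finsetSum _ fun z _ => iL z, ← integral_finsetSum _ fun z _ => iR z]
    refine integral_mono_ae (integrable_finsetSum _ fun z _ => iL z)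
      (integrable_finsetSum _ fun z _ => iR z) (hμ.2.1.mono fun f hf => ?_)
    have d1 := det (c := c) (fun z l => (hw z l).1) hs true hf
    have d2 := det (c := c) (fun z l => (hw z l).1) hs false hf
    dsimp only
    rw [Finset.sum_add_distrib, Finset.sum_add_distrib]
    refine (add_le_add (add_le_add d1 d2) le_rfl).trans (le_of_eq ?_)
    rw [← Finset.sum_add_distrib, ← Finset.sum_add_distrib]
    refine Finset.sum_congr rfl fun z hz => ?_
    have h0 : 0 ∈ Ib S false z := by simp [Ib, pt_zero, hz]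
    rw [← Finset.add_sum_erase _ (fun t => ind (TD false z t f)) h0, ← local1 hf z]
    ring
  · have u1 := up hμ hc hc' hz (hw z) true (I := Ib S true z)
      (fun t ht => (Finset.mem_filter.1 ht).2) ((mVal z).and (mLo false z).not) fun f t _ h => by
        obtain ⟨a1, a2, a3, -, -⟩ := tu_facts h
        refine ⟨⟨a1, a2⟩, ?_⟩
        simp only [Lo, Bool.not_true] at a3 ⊢
        omega
    have u2 := up hμ hc hc' hz (hw z) false (I := (Ib S false z).erase 0)
      (fun t ht => (Finset.mem_filter.1 (Finset.mem_of_mem_erase ht)).2)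
      ((mVal z).and ((mLo false z).and (mLo true z).not)) fun f t ht h => by
        obtain ⟨a1, a2, a3, -, a5⟩ := tu_facts h
        refine ⟨⟨a2, a1⟩, a5 (Finset.ne_of_mem_erase ht), ?_⟩
        simp only [Lo, Bool.not_false] at a3 ⊢
        omega
    have j1 := i0 z ((mVal z).and (mLo false z).not)
    have j2 := i0 z ((mVal z).and ((mLo false z).and (mLo true z).not))
    have j3 := i0 z ((mVal z).and (mPk z))
    have e : ∫ f, ind (Val z f) * w z (lab c f z) ∂μ =
        ∫ f, ind (Val z f ∧ ¬ Lo false z f) * w z (lab c f z) ∂μ +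
        ∫ f, ind (Val z f ∧ Lo false z f ∧ ¬ Lo true z f) * w z (lab c f z) ∂μ +
        ∫ f, ind (Val z f ∧ Pk z f) * w z (lab c f z) ∂μ := by
      rw [← integral_add j1 j2, ← integral_add (by exact j1.add j2) j3]
      refine integral_congr_ae (ae_of_all _ fun f => ?_)
      dsimp only
      rw [← local2 f z]
      ring
    rw [integral_sub (by exact ((iD true z _).add (iD false z _)).add j3) (i1 z (mPk z)),
      integral_add (by exact (iD true z _).add (iD false z _)) j3,
      integral_add (iD true z _) (iD false z _),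
      integral_sub (i0 z (mVal z)) (i1 z (mPk z)), e]
    linarith

end Pool.Agent.MP_151d89_pr.H30W
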