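import Pool.Agent.MP_151d89_pr.H30W.Face
import Pool.Agent.MP_151d89_pr.H30W.CHF

/-!
Row ZF: the pressure does not grow when the lines leave through the bottom.
-/

set_option autoImplicit false
open MeasureTheory

namespace Pool.Agent.MP_151d89_pr.H30W
open Pool.Agent.MP_151d89_pr.H82 Pool.Agent.MP_151d89_pr.H33 Pool.Agent.MP_151d89_pr.H67
open Pool.Agent.MP_151d89_pr.H30
open Classical

namespace ZFA
open CHFA

/-- the weight -/
noncomputable def wz (S : Finset (ℤ × ℤ)) (s0 j u : ℤ) (z : ℤ × ℤ) (l : ℤ) : ℝ :=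
  ind (z ∈ S ∧ 1 ≤ l ∧ l ≤ j ∧ s0 + l ≤ z.1 ∧ l - u ≤ z.2)

/-- the source term -/
noncomputable def src (S : Finset (ℤ × ℤ)) (c : Conf → ℤ) (s0 j u : ℤ) (z : ℤ × ℤ) (f : Conf) : ℝ :=
  ind (Val z f) * wz S s0 j u z (lab c f z) - ind (Pk z f) * wz S s0 j u z (lab c f z + 1)

theorem sum_one {α : Type} (s : Finset α) (p : α → Prop)
    (h : ∀ u ∈ s, ∀ v ∈ s, p u → p v → u = v) : ∑ u ∈ s, ind (p u) ≤ 1 := by
  by_cases k : ∃ u ∈ s, p u
  · obtain ⟨u, hu, k⟩ := k
    rw [Finset.sum_eq_single_of_mem u hu fun v hv e => ind_neg fun k' => e (h v hv u hu k' k)]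
    exact (ind_mem _).2
  · rw [Finset.sum_eq_zero fun u hu => ind_neg fun k' => k ⟨u, hu, k'⟩]
    norm_num

theorem dec {S : Finset (ℤ × ℤ)} {z : ℤ × ℤ} (hz : z ∈ S) (s0 j u m : ℤ) (p : Prop) :
    ind p * wz S s0 j u z m =
      ∑ l ∈ Finset.Icc 1 j, if s0 + l ≤ z.1 ∧ l - u ≤ z.2 then ind (p ∧ m = l) else 0 := by
  by_cases hm : m ∈ Finset.Icc 1 j
  · rw [Finset.sum_eq_single_of_mem m hm fun l _ e => by
      rw [ind_neg fun k => e k.2.symm, ite_self]]
    have := Finset.mem_Icc.1 hm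
    split_ifs with k
    · have e : wz S s0 j u z m = 1 := ind_pos ⟨hz, this.1, this.2, k⟩
      rw [e, mul_one]
      simp
    · have e : wz S s0 j u z m = 0 := ind_neg fun k' => k k'.2.2.2
      rw [e, mul_zero]
  · have e : wz S s0 j u z m = 0 := ind_neg fun k => hm (Finset.mem_Icc.2 ⟨k.2.1, k.2.2.1⟩)
    rw [e, mul_zero]
    refine (Finset.sum_eq_zero fun l hl => ?_).symm
    rw [ind_neg fun k : p ∧ m = l => hm (k.2 ▸ hl), ite_self]

theorem src_one (hA : AltStmt) {a b : ℤ × ℤ} {c : Conf → ℤ} {s0 β X j u : ℤ} {f : Conf}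
    (hf : Hom f) (h0 : 0 ≤ s0) (ha : a.2 ≤ -(2 * β)) (hX : X ≤ b.1) (hu : u < 2 * β)
    (hg : j ≤ lab c f (X, -(2 * β))) :
    ∑ z ∈ Finset.Icc a b, src (Finset.Icc a b) c s0 j u z f ≤ ∑ l ∈ Finset.Icc 1 j,
      ∑ x ∈ Finset.Ico 0 X, ind (Val (x, l - u) f ∧ lab c f (x, l - u) = l) := by
  have e : ∀ z ∈ Finset.Icc a b, src (Finset.Icc a b) c s0 j u z f =
      ∑ l ∈ Finset.Icc 1 j, if s0 + l ≤ z.1 ∧ l - u ≤ z.2 then
        ind (Val z f ∧ lab c f z = l) - ind (Pk z f ∧ lab c f z + 1 = l) else 0 := fun z hz => by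
    rw [src, dec hz, dec hz, ← Finset.sum_sub_distrib]
    refine Finset.sum_congr rfl fun l _ => ?_
    split_ifs <;> simp
  rw [Finset.sum_congr rfl e, Finset.sum_comm]
  refine Finset.sum_le_sum fun l hl => ?_
  have hl' := Finset.mem_Icc.1 hl
  rw [← Finset.sum_filter]
  refine (hA c f hf _ (Finset.Ico 0 X ×ˢ {l - u}) l ?_).trans ?_
  · rintro ⟨x, y⟩ hz hv he hT
    simp only [Finset.mem_filter, Finset.mem_Icc, Prod.le_def, Finset.mem_product, Finset.mem_Ico,
      Finset.mem_singleton] at hz hT ⊢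
    have k1 := lab_hi c hf false (x, y)
    rw [sub_n] at k1
    have k2 : lab c f (x, y - 1) = l - 1 := by
      rcases k1 with k1 | k1
      · omega
      · exact absurd hv.2 k1.1
    have k3 : x < X := by
      by_contra k
      have := mono (c := c) hf (show X ≤ x by omega) (show -(2 * β) ≤ y - 1 by omega)
      omega
    have := mono (c := c) hf (le_refl X) (show -(2 * β) ≤ y - 1 by omega)
    exact ⟨X, by omega, fun x' a1 a2 => by omega⟩
  · rw [Finset.sum_product]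
    simp

theorem src_all (hA : AltStmt) {a b : ℤ × ℤ} {c : Conf → ℤ} {s0 β X j : ℤ} {f : Conf}
    (hf : Hom f) (h0 : 0 ≤ s0) (hβ : 1 ≤ β) (hX0 : 0 ≤ X) (hj : 0 ≤ j) (ha : a.2 ≤ -(2 * β))
    (hX : X ≤ b.1) :
    ∑ u ∈ Finset.Ico β (2 * β), ∑ z ∈ Finset.Icc a b, src (Finset.Icc a b) c s0 j u z f ≤
      (j : ℝ) * X + β * (Finset.Icc a b).card * ind (lab c f (X, -(2 * β)) < j) := by
  have jX : (0 : ℝ) ≤ (j : ℝ) * X := by exact_mod_cast mul_nonneg hj hX0
  have cast : ∀ p q r : ℤ, 0 ≤ r → q - p = r → ((Finset.Ico p q).card : ℝ) = r :=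
    fun p q r h e => by
      rw [Int.card_Ico, e]
      exact_mod_cast Int.toNat_of_nonneg h
  by_cases hg : lab c f (X, -(2 * β)) < j
  · rw [ind_pos hg, mul_one]
    refine (Finset.sum_le_card_nsmul _ _ ((Finset.Icc a b).card : ℝ) fun u _ => ?_).trans ?_
    · refine (Finset.sum_le_card_nsmul _ _ 1 fun z _ => ?_).trans (by simp)
      have a1 : 0 ≤ ind (Pk z f) * wz (Finset.Icc a b) s0 j u z (lab c f z + 1) :=
        mul_nonneg (ind_mem _).1 (ind_mem _).1
      have a2 : ind (Val z f) * wz (Finset.Icc a b) s0 j u z (lab c f z) ≤ 1 :=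
        mul_le_one₀ (ind_mem _).2 (ind_mem _).1 (ind_mem _).2
      unfold src
      linarith
    · rw [nsmul_eq_mul, cast β (2 * β) β (by omega) (by ring)]
      linarith
  · rw [ind_neg hg, mul_zero, add_zero]
    refine (Finset.sum_le_sum fun u hu =>
      src_one hA hf h0 ha hX (Finset.mem_Ico.1 hu).2 (not_lt.1 hg)).trans ?_
    rw [Finset.sum_comm]
    refine (Finset.sum_le_card_nsmul _ _ (X : ℝ) fun l _ => ?_).trans ?_
    · rw [Finset.sum_comm]
      refine (Finset.sum_le_card_nsmul _ _ 1 fun x _ => sum_one _ _ ?_).trans ?_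
      · have key : ∀ y y' : ℤ, Val (x, y') f → lab c f (x, y) = lab c f (x, y') → ¬ y < y' :=
          fun y y' hv e k => by
            have k1 := lab_hi c hf false (x, y')
            rw [sub_n] at k1
            have := mono (c := c) hf (le_refl x) (show y ≤ y' - 1 by omega)
            rcases k1 with k1 | k1
            · omega
            · exact k1.1 hv.2
        intro u _ v _ h1 h2
        have a1 := key _ _ h1.1 (h2.2.trans h1.2.symm)
        have a2 := key _ _ h2.1 (h1.2.trans h2.2.symm)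
        omega
      · rw [nsmul_eq_mul, mul_one, cast 0 X X hX0 (by ring)]
    · rw [nsmul_eq_mul, ← Finset.Ico_add_one_right_eq_Icc, cast 1 (j + 1) j hj (by ring)]

theorem loss {a b : ℤ × ℤ} {s0 β j u L : ℤ} {Q : Finset (ℤ × ℤ)} {z z' : ℤ × ℤ}
    (hz : z ∈ Finset.Icc a b) (hj : 0 ≤ j) (h1 : a.1 ≤ s0) (ha : a.2 ≤ -(2 * β)) (hβ : 1 ≤ β)
    (hu : β ≤ u) (hu' : u < 2 * β) (hQ : ∀ z ∈ Q, s0 + j < z.1 ∧ j - β < z.2)
    (k : z.1 - 1 ≤ z'.1 ∧ z'.1 ≤ z.1 ∧ z.2 - 1 ≤ z'.2 ∧ z'.2 ≤ z.2) :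
    ind (z ∈ Q) * ind (L = j) - ind (z ∈ Finset.Icc (s0 + 1, 1 - 2 * β) b) * ind (L = 0) ≤
      wz (Finset.Icc a b) s0 j u z' L - wz (Finset.Icc a b) s0 j u z (L + 1) := by
  have hq := hQ z
  unfold wz ind
  simp only [Finset.mem_Icc, Prod.le_def] at hz ⊢
  split_ifs with a1 a2 <;> first | (have := hq a1; exfalso; omega) | (exfalso; omega) | norm_num

end ZFA
open ZFA CHFA

theorem zf_row (hW : WardStmt) (hA : AltStmt) : ZFStmt := by
  intro μ hμ a b c s0 β X j Q hc h0 hβ hX0 hj h1 ha hX hS hQ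
  have := hμ.1
  set S := Finset.Icc a b with hSd
  have bw : ∀ (u : ℤ) (z z' : ℤ × ℤ) (k : ℤ), BM fun f => wz S s0 j u z' (lab c f z + k) :=
    fun u z z' k => ⟨mw hc.1 z fun l => wz S s0 j u z' (l + k), 1, fun _ => ind_abs _⟩
  have bw0 : ∀ (u : ℤ) (z z' : ℤ × ℤ), BM fun f => wz S s0 j u z' (lab c f z) := fun u z z' => by
    simpa using bw u z z' 0
  have bn : ∀ b z, BM (Xn S b z) := fun b z => ⟨mXn _ b z, S.card, fun a => by
    rw [abs_of_nonneg (Xn_mem _ _ _ _).1]; exact (Xn_mem _ _ _ _).2⟩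
  have is : ∀ u z, Integrable (src S c s0 j u z) μ := fun u z =>
    (((bm_ind (mVal z)).mul (bw0 u z z)).sub ((bm_ind (mPk z)).mul (bw u z z 1))).int μ
  have sub : Finset.Icc (s0 + 1, 1 - 2 * β) b ⊆ S := fun z hz => by
    simp only [hSd, Finset.mem_Icc, Prod.le_def] at hz ⊢
    omega
  have jj : ∀ (Q : Finset (ℤ × ℤ)) (l : ℤ), Q ⊆ S → JJ μ S c l Q =
      ∑ z ∈ S, ind (z ∈ Q) * ∫ f, ind (lab c f z = l) * Xs S z f ∂μ := fun Q l h => by
    unfold JJ
    rw [← Finset.sum_subset h fun z _ k => by rw [ind_neg k, zero_mul]]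
    exact Finset.sum_congr rfl fun z k => by rw [ind_pos k, one_mul]
  have one : ∀ u ∈ Finset.Ico β (2 * β),
      JJ μ S c j Q - JJ μ S c 0 (Finset.Icc (s0 + 1, 1 - 2 * β) b) ≤
        ∫ f, ∑ z ∈ S, src S c s0 j u z f ∂μ := fun u hu => by
    have hu' := Finset.mem_Ico.1 hu
    rw [integral_finsetSum _ fun z _ => is u z, jj Q j hS, jj _ 0 sub, ← Finset.sum_sub_distrib]
    refine le_trans (Finset.sum_le_sum fun z hz => ?_) (hW μ hμ a b c (wz S s0 j u) 1 hc.1 hc.2
      (fun z l => ind_mem _) fun z l hz => ind_neg fun k => hz k.1)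
    have i1 := (intg_J (μ := μ) S hc.1 j z).const_mul (ind (z ∈ Q))
    have i2 := (intg_J (μ := μ) S hc.1 0 z).const_mul
      (ind (z ∈ Finset.Icc (s0 + 1, 1 - 2 * β) b))
    rw [← integral_const_mul, ← integral_const_mul, ← integral_sub i1 i2]
    refine integral_mono (i1.sub i2) (((((bn true z).mul ((bw0 u z (z - dir true)).sub
      (bw u z z 1))).add ((bn false z).mul ((bw0 u z (z - dir false)).sub
      (bw u z z 1)))).add ((bm_ind ((mVal z).and (mPk z))).mul
      ((bw0 u z z).sub (bw u z z 1)))).int μ) fun f => ?_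
    have a1 := mul_le_mul_of_nonneg_left (loss (L := lab c f z) (z' := z - dir true) hz hj h1 ha hβ
      hu'.1 hu'.2 hQ (by simp [dir])) (Xn_mem S true z f).1
    have a2 := mul_le_mul_of_nonneg_left (loss (L := lab c f z) (z' := z - dir false) hz hj h1 ha
      hβ hu'.1 hu'.2 hQ (by simp [dir])) (Xn_mem S false z f).1
    have a3 := mul_le_mul_of_nonneg_left (loss (L := lab c f z) (z' := z) hz hj h1 ha hβ
      hu'.1 hu'.2 hQ (by simp)) (ind_mem (Val z f ∧ Pk z f)).1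
    simp only [Xs]
    linarith
  have bg := bm_ind (mlp hc.1 (X, -(2 * β)) fun l => l < j)
  have ig := int_ind μ (mset (mlp hc.1 (X, -(2 * β)) fun l => l < j))
  have all := Finset.card_nsmul_le_sum _ _ _ one
  have i1 : ∀ u ∈ Finset.Ico β (2 * β), Integrable (fun f => ∑ z ∈ S, src S c s0 j u z f) μ :=
    fun u _ => integrable_finsetSum _ fun z _ => is u z
  have i2 := (bg.int μ).const_mul ((β : ℝ) * S.card)
  have up := integral_mono_ae (integrable_finsetSum _ i1) ((integrable_const ((j : ℝ) * X)).add i2)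
    (hμ.2.1.mono fun f hf => src_all hA hf h0 hβ hX0 hj ha hX)
  have e : ((Finset.Ico β (2 * β)).card : ℝ) = β := by
    rw [Int.card_Ico, (by ring : 2 * β - β = β)]
    exact_mod_cast Int.toNat_of_nonneg (by omega)
  simp only [Pi.add_apply] at up
  rw [integral_finsetSum _ i1, integral_add (integrable_const _) i2, integral_const,
    integral_const_mul, ig] at up
  simp only [probReal_univ, smul_eq_mul, one_mul] at up
  rw [nsmul_eq_mul, e] at all
  have b0 : (0 : ℝ) < β := by exact_mod_cast (by omega : 0 < β)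
  have fin := all.trans up
  have : (j : ℝ) * X / β * β = j * X := div_mul_cancel₀ _ b0.ne'
  refine le_of_mul_le_mul_right ?_ b0
  linarith

end Pool.Agent.MP_151d89_pr.H30W
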